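import Mathlib

/-!
# Graphs with loops, multiple edges and semi-edges, and their covers
-/

open Finset

namespace Pool.Agent.R667.SC

/-- A finite graph with vertex set `V`, given by its set `D` of edge-ends: the edge-end `d` is at
the vertex `src d`, and `inv d` is the other end of the edge of `d` (`inv d = d` for a semi-edge).
Multiple edges, loops and semi-edges are allowed. -/
structure DG where
  V : Type
  D : Type
  [finV : Fintype V]
  [finD : Fintype D]
  src : D → V
  inv : D → D
  inv_inv : ∀ d, inv (inv d) = d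

attribute [instance] DG.finV DG.finD

namespace DG

/-- Connectedness: any two vertices are joined by a walk. -/
def Connected (G : DG) : Prop :=
  Nonempty G.V ∧ ∀ u v, Relation.ReflTransGen (fun x y => ∃ d, G.src d = x ∧ G.src (G.inv d) = y) u v

/-- Every vertex has degree 3. -/
def Cubic (G : DG) : Prop := ∀ v, {d | G.src d = v}.ncard = 3

/-- A 3-edge-colouring: both ends of every edge have the same colour and the edge-ends at every
vertex have distinct colours. -/
def Colourable (G : DG) : Prop :=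
  ∃ c : G.D → Fin 3, (∀ d, c (G.inv d) = c d) ∧ ∀ d d', G.src d = G.src d' → c d = c d' → d = d'

/-- Cut form of connectedness. -/
def Conn (G : DG) : Prop :=
  ∀ s : G.V → Bool, (∀ d, s (G.src d) = s (G.src (G.inv d))) → ∀ u v, s u = s v

/-- Cut form of 2-edge-connectedness. -/
def BL (G : DG) : Prop :=
  ∀ (b : G.D) (s : G.V → Bool), (∀ d, d ≠ b → d ≠ G.inv b → s (G.src d) = s (G.src (G.inv d))) →
    s (G.src b) = s (G.src (G.inv b))

/-- No semi-edges. -/
def NS (G : DG) : Prop := ∀ d, G.inv d ≠ d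

/-- A covering map of graphs with loops and semi-edges. -/
structure Cover (H A : DG) where
  fV : H.V → A.V
  fD : H.D → A.D
  src_comm : ∀ d, A.src (fD d) = fV (H.src d)
  inv_comm : ∀ d, fD (H.inv d) = A.inv (fD d)
  star : ∀ v e, A.src e = fV v → ∃! d, H.src d = v ∧ fD d = e

def Cover.comp {H B A : DG} (f : Cover H B) (g : Cover B A) : Cover H A where
  fV := fun v => g.fV (f.fV v)
  fD := fun d => g.fD (f.fD d)
  src_comm := fun d => by rw [g.src_comm, f.src_comm]
  inv_comm := fun d => by rw [f.inv_comm, g.inv_comm]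
  star := by
    intro v e he
    obtain ⟨e', ⟨h1, h2⟩, h3⟩ := g.star (f.fV v) e he
    obtain ⟨d, ⟨h4, h5⟩, h6⟩ := f.star v e' h1
    refine ⟨d, ⟨h4, by rw [h5, h2]⟩, ?_⟩
    rintro d' ⟨h7, h8⟩
    refine h6 d' ⟨h7, h3 _ ⟨?_, h8⟩⟩
    rw [f.src_comm, h7]

def Cover.refl (A : DG) : Cover A A where
  fV := id
  fD := id
  src_comm := fun _ => rfl
  inv_comm := fun _ => rfl
  star := fun _ e he => ⟨e, ⟨he, rfl⟩, fun _ hd => hd.2⟩

variable {G : DG}

theorem inv_inj {d e : G.D} (h : G.inv d = G.inv e) : d = e := by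
  rw [← G.inv_inv d, h, G.inv_inv]

theorem Connected.conn (h : G.Connected) : G.Conn := by
  intro s hs u v
  have := h.2 u v
  induction this with
  | refl => rfl
  | tail _ h2 ih =>
    obtain ⟨d, rfl, rfl⟩ := h2
    rw [ih, hs d]

theorem Cubic.three (h : G.Cubic) (v : G.V) : ∃ a b c : G.D, a ≠ b ∧ a ≠ c ∧ b ≠ c ∧
    ∀ d, G.src d = v ↔ d = a ∨ d = b ∨ d = c := by
  obtain ⟨a, b, c, h1, h2, h3, h4⟩ := Set.ncard_eq_three.1 (h v)
  refine ⟨a, b, c, h1, h2, h3, fun d => ?_⟩
  have : d ∈ {d | G.src d = v} ↔ d ∈ ({a, b, c} : Set G.D) := by rw [h4]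
  simpa using this

theorem Cover.cubic {H A : DG} (f : Cover H A) (hA : A.Cubic) : H.Cubic := by
  intro v
  rw [← hA (f.fV v)]
  refine Set.ncard_congr (fun d _ => f.fD d) ?_ ?_ ?_
  · intro d hd
    change A.src (f.fD d) = f.fV v
    rw [f.src_comm, show H.src d = v from hd]
  · intro d d' hd hd' h
    obtain ⟨e, -, h2⟩ := f.star v (f.fD d) (by rw [f.src_comm, show H.src d = v from hd])
    rw [h2 d ⟨hd, rfl⟩, h2 d' ⟨hd', h.symm⟩]
  · intro e he
    obtain ⟨d, h1, -⟩ := f.star v e he
    exact ⟨d, h1.1, h1.2⟩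

theorem Cover.ns {H A : DG} (f : Cover H A) (hA : A.NS) : H.NS := by
  intro d hd
  have := f.inv_comm d
  rw [hd] at this
  exact hA _ this.symm

/-! ### Parity -/

/-- The three nonzero elements of the Klein four-group. -/
def phi (i : Fin 3) : ZMod 2 × ZMod 2 := if i = 0 then (1, 0) else if i = 1 then (0, 1) else (1, 1)

theorem phi_sum {a b c : Fin 3} (h1 : a ≠ b) (h2 : a ≠ c) (h3 : b ≠ c) :
    phi a + (phi b + phi c) = 0 := by
  revert a b c; decide

theorem phi_sum3 {a b c : Fin 3} (h : phi a + (phi b + phi c) = 0) : a ≠ b ∧ a ≠ c ∧ b ≠ c := by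
  revert a b c; decide

theorem phi_sum2 {a b : Fin 3} (h : phi a + phi b = 0) : a = b := by
  revert a b; decide

theorem add_self (x : ZMod 2 × ZMod 2) : x + x = 0 := by revert x; decide

open Classical in
theorem sum_vertex (hc : G.Cubic) {c : G.D → Fin 3}
    (hc2 : ∀ d d', G.src d = G.src d' → c d = c d' → d = d') (v : G.V) :
    ∑ d ∈ univ.filter (fun d => G.src d = v), phi (c d) = 0 := by
  obtain ⟨x, y, z, h1, h2, h3, h4⟩ := hc.three v
  have e : univ.filter (fun d => G.src d = v) = {x, y, z} := by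
    ext d
    simp [h4]
  have hx := (h4 x).2 (Or.inl rfl)
  have hy := (h4 y).2 (Or.inr (Or.inl rfl))
  have hz := (h4 z).2 (Or.inr (Or.inr rfl))
  rw [e, sum_insert (by simp [h1, h2]), sum_pair h3]
  refine phi_sum ?_ ?_ ?_
  · exact fun h => h1 (hc2 _ _ (by rw [hx, hy]) h)
  · exact fun h => h2 (hc2 _ _ (by rw [hx, hz]) h)
  · exact fun h => h3 (hc2 _ _ (by rw [hy, hz]) h)

open Classical in
/-- Parity lemma. -/
theorem parity (hc : G.Cubic) (hns : G.NS) {c : G.D → Fin 3} (hc1 : ∀ d, c (G.inv d) = c d)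
    (hc2 : ∀ d d', G.src d = G.src d' → c d = c d' → d = d') (X : Set G.V) :
    ∑ d ∈ univ.filter (fun d => G.src d ∈ X ∧ G.src (G.inv d) ∉ X), phi (c d) = 0 := by
  have h1 : ∑ d ∈ univ.filter (fun d => G.src d ∈ X), phi (c d) = 0 := by
    rw [← sum_fiberwise_of_maps_to (t := univ.filter (fun v => v ∈ X)) (g := G.src)
      (fun d hd => by simpa using hd)]
    refine sum_eq_zero fun v hv => ?_
    rw [mem_filter] at hv
    rw [← sum_vertex hc hc2 v]
    refine sum_congr ?_ fun _ _ => rfl
    ext d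
    simp only [mem_filter, mem_univ, true_and]
    constructor
    · exact fun h => h.2
    · exact fun h => ⟨by rw [h]; exact hv.2, h⟩
  have h2 : ∑ d ∈ univ.filter (fun d => G.src d ∈ X ∧ G.src (G.inv d) ∈ X), phi (c d) = 0 := by
    refine sum_involution (fun d _ => G.inv d) ?_ ?_ ?_ ?_
    · intro d _
      rw [hc1]
      exact add_self _
    · intro d _ _
      exact hns d
    · intro d hd
      simp only [mem_filter, mem_univ, true_and] at hd ⊢
      rw [G.inv_inv]
      exact ⟨hd.2, hd.1⟩
    · intro d _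
      exact G.inv_inv d
  have h3 := sum_filter_add_sum_filter_not (univ.filter (fun d => G.src d ∈ X))
    (fun d => G.src (G.inv d) ∈ X) (fun d => phi (c d))
  rw [filter_filter, filter_filter, h1, h2, zero_add] at h3
  exact h3

theorem parity' (hc : G.Cubic) (hns : G.NS) {c : G.D → Fin 3} (hc1 : ∀ d, c (G.inv d) = c d)
    (hc2 : ∀ d d', G.src d = G.src d' → c d = c d' → d = d') (X : Set G.V) (L : Finset G.D)
    (hL : ∀ d, d ∈ L ↔ (G.src d ∈ X ∧ G.src (G.inv d) ∉ X)) : ∑ d ∈ L, phi (c d) = 0 := by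
  classical
  rw [← parity hc hns hc1 hc2 X]
  refine sum_congr ?_ fun _ _ => rfl
  ext d
  rw [hL, mem_filter]
  simp

/-! ### Fibres -/

/-- A cover of a graph without bridges has no bridges. -/
theorem Cover.bl {H A : DG} (f : Cover H A) (hA : A.BL) (hns : A.NS) : H.BL := by
  classical
  intro b s hs
  -- sum over the fibres
  let S : A.V → ZMod 2 := fun v => ∑ w ∈ univ.filter (fun w => f.fV w = v), (if s w then 1 else 0)
  have hstar : ∀ e : A.D, S (A.src e) =
      ∑ d ∈ univ.filter (fun d => f.fD d = e), (if s (H.src d) then 1 else 0) := by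
    intro e
    refine (sum_bij (fun d _ => H.src d) ?_ ?_ ?_ ?_).symm
    · intro d hd
      simp only [mem_filter, mem_univ, true_and] at hd ⊢
      rw [← f.src_comm, hd]
    · intro d hd d' hd' h
      simp only [mem_filter, mem_univ, true_and] at hd hd'
      obtain ⟨x, -, hx⟩ := f.star (H.src d) e (by rw [← f.src_comm, hd])
      rw [hx d ⟨rfl, hd⟩, hx d' ⟨h.symm, hd'⟩]
    · intro w hw
      simp only [mem_filter, mem_univ, true_and] at hw
      obtain ⟨d, hd, -⟩ := f.star w e hw.symm
      exact ⟨d, by simpa using hd.2, hd.1⟩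
    · intro d _
      rfl
  have hstar2 : ∀ e : A.D, S (A.src (A.inv e)) =
      ∑ d ∈ univ.filter (fun d => f.fD d = e), (if s (H.src (H.inv d)) then 1 else 0) := by
    intro e
    rw [hstar]
    refine sum_bij (fun d _ => H.inv d) ?_ ?_ ?_ ?_
    · intro d hd
      simp only [mem_filter, mem_univ, true_and] at hd ⊢
      rw [f.inv_comm, hd, A.inv_inv]
    · intro d _ d' _ h
      exact inv_inj h
    · intro d hd
      simp only [mem_filter, mem_univ, true_and] at hd
      exact ⟨H.inv d, by simp [f.inv_comm, hd], H.inv_inv d⟩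
    · intro d _
      rw [H.inv_inv]
  have hSeq : ∀ e, e ≠ f.fD b → e ≠ A.inv (f.fD b) → S (A.src e) = S (A.src (A.inv e)) := by
    intro e h1 h2
    rw [hstar, hstar2]
    refine sum_congr rfl fun d hd => ?_
    simp only [mem_filter, mem_univ, true_and] at hd
    rw [hs d]
    · rintro rfl; exact h1 hd.symm
    · rintro rfl
      rw [f.inv_comm] at hd
      exact h2 hd.symm
  have hkey := hA (f.fD b) (fun v => decide (S v = 1)) (fun e h1 h2 => by
    rw [hSeq e h1 h2])
  have hkey' : S (A.src (f.fD b)) = S (A.src (A.inv (f.fD b))) := by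
    have h01 : ∀ x y : ZMod 2, decide (x = 1) = decide (y = 1) → x = y := by decide
    exact h01 _ _ hkey
  rw [hstar, hstar2] at hkey'
  have hb : b ∈ univ.filter (fun d => f.fD d = f.fD b) := by simp
  rw [← add_sum_erase _ _ hb, ← add_sum_erase _ _ hb] at hkey'
  have hrest : ∑ d ∈ (univ.filter (fun d => f.fD d = f.fD b)).erase b,
      (if s (H.src d) then (1 : ZMod 2) else 0) =
      ∑ d ∈ (univ.filter (fun d => f.fD d = f.fD b)).erase b,
      (if s (H.src (H.inv d)) then (1 : ZMod 2) else 0) := by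
    refine sum_congr rfl fun d hd => ?_
    rw [mem_erase, mem_filter] at hd
    rw [hs d hd.1]
    rintro rfl
    have := hd.2.2
    rw [f.inv_comm] at this
    exact hns _ this
  rw [hrest] at hkey'
  have h2 := add_right_cancel hkey'
  cases h3 : s (H.src b) <;> cases h4 : s (H.src (H.inv b)) <;> simp_all

end DG

end Pool.Agent.R667.SC
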