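import Pool.Agent.R667.SC.StepB

/-!
# Snark covers: from loop-free multigraphs to simple graphs
-/

open Finset

namespace Pool.Agent.R667.SC

/-- A covering map from the simple graph `H` to the graph `A`: a map on the vertices and a map on
the edge-ends (the darts of `H`), compatible with taking the vertex of an edge-end and with passing
to the other end of an edge, and bijective from the edge-ends at `v` to the edge-ends at `fV v`. -/
structure SimpleCover {W : Type} (H : SimpleGraph W) (A : DG) where
  fV : W → A.V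
  fD : H.Dart → A.D
  src_comm : ∀ d, A.src (fD d) = fV d.fst
  inv_comm : ∀ d, fD d.symm = A.inv (fD d)
  star : ∀ v e, A.src e = fV v → ∃! d : H.Dart, d.fst = v ∧ fD d = e

/-- 2-connectedness of a simple graph: at least three vertices, connected, and connected after
removing any vertex. -/
def TwoConnected {W : Type} [Fintype W] (H : SimpleGraph W) : Prop :=
  3 ≤ Fintype.card W ∧ H.Connected ∧ ∀ v : W, (H.induce {v}ᶜ).Connected

/-- 3-edge-colourability of a simple graph. -/
def EdgeColourable3 {W : Type} (H : SimpleGraph W) : Prop :=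
  ∃ c : Sym2 W → Fin 3, ∀ v a b, H.Adj v a → H.Adj v b → a ≠ b → c s(v, a) ≠ c s(v, b)

namespace DG

/-- Removing the semi-edges. -/
theorem step0 (A : DG) (hconn : A.Conn) (hcol : ¬ A.Colourable) :
    ∃ H : DG, Nonempty (Cover H A) ∧ H.Conn ∧ H.NS ∧ ¬ H.Colourable := by
  classical
  by_cases hns : A.NS
  · exact ⟨A, ⟨Cover.refl A⟩, hconn, hns, hcol⟩
  unfold NS at hns
  push Not at hns
  obtain ⟨e, he⟩ := hns
  let pi : A.D → Bool → Bool := fun d t => if A.inv d = d then !t else t
  have hpi : ∀ d i, pi (A.inv d) (pi d i) = i := by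
    intro d i
    by_cases h : A.inv d = d
    · simp [pi, h]
    · have h2 : A.inv (A.inv d) ≠ A.inv d := fun h3 => h (inv_inj h3)
      simp only [pi, if_neg h, if_neg h2]
  refine ⟨A.volt Bool pi hpi, ⟨A.voltCover Bool pi hpi⟩, ?_, ?_, ?_⟩
  · intro s hs
    have h1 : ∀ t u v, s (u, t) = s (v, t) := by
      intro t
      refine hconn (fun v => s (v, t)) fun d => ?_
      by_cases h : A.inv d = d
      · rw [h]
      · have h2 : s (A.src d, t) = s (A.src (A.inv d), pi d t) := hs (d, t)
        rw [show pi d t = t from if_neg h] at h2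
        exact h2
    have h2 : s (A.src e, false) = s (A.src (A.inv e), pi e false) := hs (e, false)
    rw [show pi e false = true from if_pos he, he] at h2
    rintro ⟨u, t⟩ ⟨v, t'⟩
    rw [h1 t u (A.src e), h1 t' v (A.src e)]
    cases t <;> cases t'
    · rfl
    · exact h2
    · exact h2.symm
    · rfl
  · rintro ⟨d, t⟩ h
    have h1 : (A.inv d, pi d t) = (d, t) := h
    rw [Prod.mk.injEq] at h1
    have h2 : pi d t = !t := if_pos h1.1
    rw [h2] at h1
    cases t <;> simp at h1
  · rintro ⟨c, hc1, hc2⟩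
    apply hcol
    refine ⟨fun d => c (d, false), ?_, ?_⟩
    · intro d
      by_cases h : A.inv d = d
      · rw [h]
      · have h2 : c (A.inv d, pi d false) = c (d, false) := hc1 (d, false)
        rw [show pi d false = false from if_neg h] at h2
        exact h2
    · intro d d' h1 h2
      have h3 := hc2 (d, false) (d', false) (by
        change (A.src d, false) = (A.src d', false)
        rw [h1]) h2
      exact congrArg Prod.fst h3

theorem exists_good (A : DG) (hconn : A.Conn) (hc : A.Cubic) (hcol : ¬ A.Colourable) :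
    ∃ H : DG, Nonempty (Cover H A) ∧ H.Conn ∧ H.BL ∧ H.Simple ∧ ¬ H.Colourable := by
  obtain ⟨G0, ⟨f0⟩, hconn0, hns0, hcol0⟩ := step0 A hconn hcol
  have hc0 := f0.cubic hc
  obtain ⟨G1, ⟨f1⟩, hconn1, hns1, hbl1, hcol1⟩ :
      ∃ H : DG, Nonempty (Cover H G0) ∧ H.Conn ∧ H.NS ∧ H.BL ∧ ¬ H.Colourable := by
    by_cases hbl : G0.BL
    · exact ⟨G0, ⟨Cover.refl G0⟩, hconn0, hns0, hbl, hcol0⟩
    · exact stepA G0 hconn0 hc0 hns0 hbl
  have hc1 := f1.cubic hc0
  obtain ⟨G2, f2, hconn2, hs2, gd, hgd⟩ := stepB1 G1 hconn1 hc1 hns1 hbl1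
  obtain ⟨H, ⟨f3⟩, h1, h2, h3, h4⟩ :=
    stepB2 G1 G2 hconn1 hc1 hns1 hbl1 hcol1 f2 hconn2 hs2 gd hgd
  exact ⟨H, ⟨f3.comp (f1.comp f0)⟩, h1, h2, h3, h4⟩

/-- The simple graph of a graph without loops and multiple edges. -/
def toSimple (H : DG) (hs : H.Simple) : SimpleGraph H.V where
  Adj u v := ∃ d, H.src d = u ∧ H.src (H.inv d) = v
  symm := ⟨by
    rintro u v ⟨d, h1, h2⟩
    exact ⟨H.inv d, h2, by rw [H.inv_inv]; exact h1⟩⟩
  loopless := ⟨by
    rintro u ⟨d, h1, h2⟩
    exact hs.1 d (by rw [h1, h2])⟩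

theorem simpleCover {H A : DG} (hs : H.Simple) (f : Cover H A) :
    Nonempty (SimpleCover (H.toSimple hs) A) := by
  have hex : ∀ a : (H.toSimple hs).Dart, ∃ d, H.src d = a.fst ∧ H.src (H.inv d) = a.snd :=
    fun a => a.adj
  choose g hg1 hg2 using hex
  have hadj : ∀ d, (H.toSimple hs).Adj (H.src d) (H.src (H.inv d)) := fun d => ⟨d, rfl, rfl⟩
  refine ⟨⟨f.fV, fun a => f.fD (g a), ?_, ?_, ?_⟩⟩
  · intro a
    rw [f.src_comm, hg1]
  · intro a
    rw [← f.inv_comm]
    congr 1
    refine hs.2 _ _ ?_ ?_
    · rw [hg1, hg2]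
      rfl
    · rw [hg2, H.inv_inv, hg1]
      rfl
  · intro v e he
    obtain ⟨d, ⟨hd1, hd2⟩, hd3⟩ := f.star v e he
    have hgd : g ⟨(H.src d, H.src (H.inv d)), hadj d⟩ = d := by
      refine hs.2 _ _ ?_ ?_
      · rw [hg1]
      · rw [hg2]
    refine ⟨⟨(H.src d, H.src (H.inv d)), hadj d⟩, ⟨hd1, ?_⟩, ?_⟩
    · change f.fD (g _) = e
      rw [hgd, hd2]
    · rintro a ⟨h1, h2⟩
      have h3 : g a = d := hd3 _ ⟨by rw [hg1]; exact h1, h2⟩
      refine SimpleGraph.Dart.ext _ _ (Prod.ext ?_ ?_)
      · change a.fst = H.src d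
        rw [← h3, hg1]
      · change a.snd = H.src (H.inv d)
        rw [← h3, hg2]

theorem not_edgeColourable {H : DG} (hs : H.Simple) (hcol : ¬ H.Colourable) :
    ¬ EdgeColourable3 (H.toSimple hs) := by
  rintro ⟨c, hc⟩
  apply hcol
  refine ⟨fun d => c s(H.src d, H.src (H.inv d)), ?_, ?_⟩
  · intro d
    dsimp only
    rw [H.inv_inv, Sym2.eq_swap]
  · intro d d' h1 h2
    by_contra hne
    refine hc (H.src d) (H.src (H.inv d)) (H.src (H.inv d')) ⟨d, rfl, rfl⟩ ⟨d', h1.symm, rfl⟩
      (fun h3 => hne (hs.2 d d' h1 h3)) ?_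
    dsimp only at h2
    rw [h2, h1]

theorem twoConnected {H : DG} (hs : H.Simple) (hc : H.Cubic) (hne : Nonempty H.V)
    (hconn : H.Conn) (hbl : H.BL) : TwoConnected (H.toSimple hs) := by
  classical
  refine ⟨?_, ?_, ?_⟩
  · obtain ⟨v⟩ := hne
    obtain ⟨a, b, c, h1, h2, h3, h4⟩ := hc.three v
    have hx := (h4 a).2 (Or.inl rfl)
    have hy := (h4 b).2 (Or.inr (Or.inl rfl))
    have hz := (h4 c).2 (Or.inr (Or.inr rfl))
    have e : ({H.src (H.inv a), H.src (H.inv b), H.src (H.inv c)} : Finset H.V).card = 3 := by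
      rw [card_eq_three]
      refine ⟨_, _, _, ?_, ?_, ?_, rfl⟩
      · exact fun h => h1 (hs.2 _ _ (by rw [hx, hy]) h)
      · exact fun h => h2 (hs.2 _ _ (by rw [hx, hz]) h)
      · exact fun h => h3 (hs.2 _ _ (by rw [hy, hz]) h)
    rw [← e]
    exact card_le_univ _
  · haveI := hne
    refine ⟨fun u v => ?_⟩
    have h := hconn (fun w => decide ((H.toSimple hs).Reachable u w)) (fun d => by
      have had : (H.toSimple hs).Adj (H.src d) (H.src (H.inv d)) := ⟨d, rfl, rfl⟩
      have : (H.toSimple hs).Reachable u (H.src d) ↔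
          (H.toSimple hs).Reachable u (H.src (H.inv d)) :=
        ⟨fun h => h.trans had.reachable, fun h => h.trans had.symm.reachable⟩
      simp only [this]) u v
    have h1 : decide ((H.toSimple hs).Reachable u u) = true :=
      decide_eq_true (SimpleGraph.Reachable.refl u)
    simp only [h1] at h
    exact of_decide_eq_true h.symm
  · intro v
    obtain ⟨a, b, c, h1, h2, h3, h4⟩ := hc.three v
    have hx := (h4 a).2 (Or.inl rfl)
    have hnv : H.src (H.inv a) ∈ ({v}ᶜ : Set H.V) := by
      intro h
      exact hs.1 a (by rw [hx]; exact (Set.mem_singleton_iff.1 h).symm)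
    haveI : Nonempty ({v}ᶜ : Set H.V) := ⟨⟨_, hnv⟩⟩
    refine ⟨fun x y => ?_⟩
    let Q := (H.toSimple hs).induce ({v}ᶜ : Set H.V)
    let t0 : H.V → Bool := fun z => decide (∃ h : z ∈ ({v}ᶜ : Set H.V), Q.Reachable x ⟨z, h⟩)
    obtain ⟨d0, m, hd0, hm⟩ : ∃ (d0 : H.D) (m : Bool), H.src d0 = v ∧
        ∀ d, H.src d = v → d ≠ d0 → t0 (H.src (H.inv d)) = m := by
      have hy := (h4 b).2 (Or.inr (Or.inl rfl))
      have hz := (h4 c).2 (Or.inr (Or.inr rfl))
      have hd : ∀ d, H.src d = v → d = a ∨ d = b ∨ d = c := fun d h => (h4 d).1 h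
      by_cases hab : t0 (H.src (H.inv a)) = t0 (H.src (H.inv b))
      · refine ⟨c, t0 (H.src (H.inv a)), hz, fun d hdv hdc => ?_⟩
        rcases hd d hdv with rfl | rfl | rfl
        · rfl
        · exact hab.symm
        · exact absurd rfl hdc
      · by_cases hac : t0 (H.src (H.inv a)) = t0 (H.src (H.inv c))
        · refine ⟨b, t0 (H.src (H.inv a)), hy, fun d hdv hdc => ?_⟩
          rcases hd d hdv with rfl | rfl | rfl
          · rfl
          · exact absurd rfl hdc
          · exact hac.symm
        · have hbc : t0 (H.src (H.inv b)) = t0 (H.src (H.inv c)) := by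
            revert hab hac
            generalize t0 (H.src (H.inv a)) = p
            generalize t0 (H.src (H.inv b)) = q
            generalize t0 (H.src (H.inv c)) = r
            revert p q r
            decide
          refine ⟨a, t0 (H.src (H.inv b)), hx, fun d hdv hdc => ?_⟩
          rcases hd d hdv with rfl | rfl | rfl
          · exact absurd rfl hdc
          · rfl
          · exact hbc.symm
    let t : H.V → Bool := fun z => if z = v then m else t0 z
    have ht : ∀ d, d ≠ d0 → d ≠ H.inv d0 → t (H.src d) = t (H.src (H.inv d)) := by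
      intro d hne1 hne2
      by_cases hv1 : H.src d = v
      · have hv2 : H.src (H.inv d) ≠ v := fun h => hs.1 d (by rw [hv1, h])
        change (if H.src d = v then m else t0 (H.src d)) =
          (if H.src (H.inv d) = v then m else t0 (H.src (H.inv d)))
        rw [if_pos hv1, if_neg hv2, hm d hv1 hne1]
      · by_cases hv2 : H.src (H.inv d) = v
        · change (if H.src d = v then m else t0 (H.src d)) =
            (if H.src (H.inv d) = v then m else t0 (H.src (H.inv d)))
          rw [if_neg hv1, if_pos hv2]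
          have := hm (H.inv d) hv2 (fun h => hne2 (by rw [← h, H.inv_inv]))
          rw [H.inv_inv] at this
          exact this
        · change (if H.src d = v then m else t0 (H.src d)) =
            (if H.src (H.inv d) = v then m else t0 (H.src (H.inv d)))
          rw [if_neg hv1, if_neg hv2]
          have had : Q.Adj ⟨H.src d, hv1⟩ ⟨H.src (H.inv d), hv2⟩ := by
            change (H.toSimple hs).Adj _ _
            exact ⟨d, rfl, rfl⟩
          have : (∃ h : H.src d ∈ ({v}ᶜ : Set H.V), Q.Reachable x ⟨H.src d, h⟩) ↔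
              (∃ h : H.src (H.inv d) ∈ ({v}ᶜ : Set H.V), Q.Reachable x ⟨H.src (H.inv d), h⟩) := by
            constructor
            · rintro ⟨h, h'⟩
              exact ⟨hv2, h'.trans had.reachable⟩
            · rintro ⟨h, h'⟩
              exact ⟨hv1, h'.trans had.symm.reachable⟩
          simp only [t0, this]
    have hd0t := hbl d0 t ht
    have hall : ∀ d, t (H.src d) = t (H.src (H.inv d)) := by
      intro d
      by_cases e1 : d = d0
      · rw [e1]; exact hd0t
      · by_cases e2 : d = H.inv d0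
        · rw [e2, H.inv_inv]; exact hd0t.symm
        · exact ht d e1 e2
    have hxy := hconn t hall x.1 y.1
    have hx1 : t x.1 = true := by
      have hxv : x.1 ≠ v := x.2
      change (if x.1 = v then m else t0 x.1) = true
      rw [if_neg hxv]
      exact decide_eq_true ⟨x.2, SimpleGraph.Reachable.refl _⟩
    rw [hx1] at hxy
    have hy1 : t0 y.1 = true := by
      have hyv : y.1 ≠ v := y.2
      have : t y.1 = t0 y.1 := if_neg hyv
      rw [← this, ← hxy]
    obtain ⟨h, h'⟩ := of_decide_eq_true hy1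
    exact h'

end DG

/-- Every connected cubic graph `A` (multiple edges, loops and semi-edges allowed) that is not
3-edge-colourable is covered by a simple 2-connected graph that is not 3-edge-colourable. -/
theorem main (A : DG) (hconn : A.Connected) (hc : A.Cubic) (hcol : ¬ A.Colourable) :
    ∃ (W : Type) (_ : Fintype W) (H : SimpleGraph W),
      TwoConnected H ∧ ¬ EdgeColourable3 H ∧ Nonempty (SimpleCover H A) := by
  obtain ⟨H, ⟨f⟩, h1, h2, h3, h4⟩ := DG.exists_good A hconn.conn hc hcol
  have hne : Nonempty H.V := by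
    by_contra hne
    rw [not_nonempty_iff] at hne
    apply h4
    exact ⟨fun d => (hne.false (H.src d)).elim, fun d => (hne.false (H.src d)).elim,
      fun d => (hne.false (H.src d)).elim⟩
  exact ⟨H.V, inferInstance, H.toSimple h3, DG.twoConnected h3 (f.cubic hc) hne h1 h2,
    DG.not_edgeColourable h3 h4, DG.simpleCover h3 f⟩

end Pool.Agent.R667.SC
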