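import Mathlib

/-!
# The Petersen graph: darts `0, …, 29`, the darts at the vertex `p` are `3p, 3p+1, 3p+2`
-/

namespace Pool.Agent.R667.SC

/-- table of the reversal of darts -/
def tauL : List ℕ := [4, 12, 17, 7, 0, 20, 10, 3, 23, 13, 6, 26, 1, 9, 29, 22, 24, 2, 25, 27, 5, 28, 15, 8, 16, 18, 11, 19, 21, 14]

/-- rotation of the darts at a vertex -/
def rho (i : Fin 30) : Fin 30 := ⟨3 * (i.1 / 3) + (i.1 + 1) % 3, by omega⟩

/-- reversal of darts -/
def tau (i : Fin 30) : Fin 30 := ⟨tauL.getD i.1 0 % 30, by omega⟩

theorem tau_tau (i : Fin 30) : tau (tau i) = i := by revert i; decide +kernel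
theorem tau_ne (i : Fin 30) : tau i ≠ i := by revert i; decide +kernel
theorem rho_ne (i : Fin 30) : rho i ≠ i := by revert i; decide +kernel
theorem rho3 (i : Fin 30) : rho (rho (rho i)) = i := by revert i; decide +kernel
theorem rho_inj (i j : Fin 30) (h : rho i = rho j) : i = j := by
  rw [← rho3 i, h, rho3]

/-- Moves: `true` is the rotation, `false` is the reversal. -/
def mv : Bool → Fin 30 → Fin 30
  | true => rho
  | false => tau

/-- The end of a word, if all its moves are allowed. -/
def run (ok : Bool → Fin 30 → Bool) : List Bool → Fin 30 → Option (Fin 30)
  | [], i => some i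
  | m :: w, i => if ok m i then run ok w (mv m i) else none

theorem run_const {ok : Bool → Fin 30 → Bool} {t : Fin 30 → Bool}
    (h : ∀ m i, ok m i = true → t (mv m i) = t i) :
    ∀ (w : List Bool) (i j : Fin 30), run ok w i = some j → t j = t i := by
  intro w
  induction w with
  | nil =>
    intro i j hij
    simp only [run, Option.some.injEq] at hij
    rw [hij]
  | cons m w ih =>
    intro i j hij
    unfold run at hij
    split_ifs at hij with hok
    rw [ih _ _ hij, h m i hok]

def okA (i0 : Fin 30) (m : Bool) (i : Fin 30) : Bool := m || (i != i0 && i != tau i0)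
def okB (i0 : Fin 30) (m : Bool) (i : Fin 30) : Bool := !m || (i != i0 && rho i != i0)

def wA : List (List Bool) := [[true, false, true, false, true, false, true, false, true],
  [true, false, true, false, true, true, false, true, false, true],
  [true, false, true, false, true, false, true, true, false, true],
  [true, true, false, true, false, true, false, true, false, true],
  [true, false, true, true, false, true, false, true, false, true]]

def wB : List (List Bool) := [[false, true, false, true, true, false, true, true, false, true, false],
  [false, true, false, true, true, false, true, false, true, false],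
  [false, true, false, true, false, true, true, false, true, false],
  [false, true, false, true, false, true, false, true, false],
  [false, true, true, false, true, false, true, true, false, true, false],
  [false, true, false, true, true, false, true, false, true, true, false]]

def wC : List (List Bool) := [[],
  [true],
  [true, true],
  [false, true, true],
  [false],
  [false, true],
  [true, false, true, false, true, false],
  [false, true, true, false],
  [false, true, true, false, true],
  [true, false, true, false],
  [true, false, true, false, true],
  [true, false, true, false, true, true],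
  [true, false],
  [true, false, true],
  [true, false, true, true],
  [true, true, false, true],
  [true, true, false, true, true],
  [true, true, false],
  [false, true, false, true],
  [false, true, false, true, true],
  [false, true, false],
  [true, true, false, true, false, true, true],
  [true, true, false, true, false],
  [true, true, false, true, false, true],
  [true, true, false, true, true, false],
  [false, true, false, true, false],
  [false, true, false, true, false, true],
  [true, false, true, true, false, true],
  [true, false, true, true, false, true, true],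
  [true, false, true, true, false]]

theorem chkA : ∀ i0 : Fin 30, ∃ w ∈ wA, run (okA i0) w i0 = some (tau i0) := by decide +kernel
theorem chkB : ∀ i0 : Fin 30, ∃ w ∈ wB, run (okB i0) w i0 = some (rho i0) := by decide +kernel
theorem chkC : ∀ i : Fin 30, ∃ w ∈ wC, run (fun _ _ => true) w 0 = some i := by decide +kernel

/-- The Petersen graph has no bridge. -/
theorem petA (i0 : Fin 30) (t : Fin 30 → Bool) (h1 : ∀ j, t (rho j) = t j)
    (h2 : ∀ j, j ≠ i0 → j ≠ tau i0 → t (tau j) = t j) : t (tau i0) = t i0 := by
  obtain ⟨w, -, hw⟩ := chkA i0
  refine run_const (ok := okA i0) ?_ w _ _ hw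
  rintro (_ | _) i hok
  · simp only [okA, Bool.false_or, Bool.and_eq_true, bne_iff_ne, ne_eq] at hok
    exact h2 i hok.1 hok.2
  · exact h1 i

theorem petB (i0 : Fin 30) (t : Fin 30 → Bool) (h1 : ∀ j, t (tau j) = t j)
    (h2 : ∀ j, j ≠ i0 → rho j ≠ i0 → t (rho j) = t j) : t (rho i0) = t i0 := by
  obtain ⟨w, -, hw⟩ := chkB i0
  refine run_const (ok := okB i0) ?_ w _ _ hw
  rintro (_ | _) i hok
  · exact h1 i
  · simp only [okB, Bool.not_true, Bool.false_or, Bool.and_eq_true, bne_iff_ne, ne_eq] at hok
    exact h2 i hok.1 hok.2

/-- The Petersen graph is connected. -/
theorem petC (t : Fin 30 → Bool) (h1 : ∀ j, t (rho j) = t j) (h2 : ∀ j, t (tau j) = t j)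
    (i j : Fin 30) : t i = t j := by
  have key : ∀ i, t i = t 0 := by
    intro i
    obtain ⟨w, -, hw⟩ := chkC i
    refine run_const (ok := fun _ _ => true) ?_ w _ _ hw
    rintro (_ | _) i -
    · exact h2 i
    · exact h1 i
  rw [key i, key j]

/-! ### no 3-edge-colouring -/

def okc (k : ℕ) (l : List ℕ) (c : ℕ) : Bool :=
  (!(decide (tauL.getD k 0 < k)) || l.getD (tauL.getD k 0) 9 == c) &&
  (!(decide (1 ≤ k % 3)) || l.getD (k - 1) 9 != c) &&
  (!(decide (k % 3 = 2)) || l.getD (k - 2) 9 != c)

def stepc (k : ℕ) (L : List (List ℕ)) : List (List ℕ) :=
  L.flatMap fun l => ([0, 1, 2].filter (okc k l)).map fun c => l ++ [c]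

def itc : ℕ → List (List ℕ)
  | 0 => [[]]
  | k + 1 => stepc k (itc k)

theorem itc30 : itc 30 = [] := by decide +kernel

theorem tauL_eq (k : Fin 30) : tauL.getD k.1 0 = (tau k).1 := by revert k; decide +kernel

theorem pet_not_colourable (γ : Fin 30 → Fin 3) (h1 : ∀ i, γ (tau i) = γ i)
    (h2 : ∀ i, γ (rho i) ≠ γ i) : False := by
  set g : ℕ → ℕ := fun k => if h : k < 30 then (γ ⟨k, h⟩).1 else 0 with hg
  have hgk : ∀ k (h : k < 30), g k = (γ ⟨k, h⟩).1 := fun k h => by rw [hg]; simp [h]
  have hget : ∀ k i, i < k → ((List.range k).map g).getD i 9 = g i := by
    intro k i h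
    rw [List.getD_eq_getElem _ _ (by simpa using h)]
    simp
  have key : ∀ k ≤ 30, (List.range k).map g ∈ itc k := by
    intro k
    induction k with
    | zero => intro _; simp [itc]
    | succ k ih =>
      intro hk
      have hk' : k < 30 := by omega
      have h3 := ih (by omega)
      unfold itc stepc
      rw [List.mem_flatMap]
      refine ⟨_, h3, ?_⟩
      rw [List.mem_map]
      refine ⟨g k, ?_, by rw [List.range_succ, List.map_append]; rfl⟩
      rw [List.mem_filter]
      constructor
      · have h4 : g k < 3 := by rw [hgk k hk']; exact (γ ⟨k, hk'⟩).2
        interval_cases g k <;> simp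
      · unfold okc
        simp only [Bool.and_eq_true, Bool.or_eq_true, Bool.not_eq_true', decide_eq_false_iff_not,
          beq_iff_eq, bne_iff_ne, ne_eq]
        refine ⟨⟨?_, ?_⟩, ?_⟩
        · by_cases h5 : tauL.getD k 0 < k
          · right
            rw [hget _ _ h5]
            have e := tauL_eq ⟨k, hk'⟩
            dsimp only at e
            rw [e] at h5 ⊢
            rw [hgk _ (by omega), hgk k hk']
            exact congrArg Fin.val (h1 ⟨k, hk'⟩)
          · exact Or.inl h5
        · by_cases h5 : 1 ≤ k % 3
          · right
            rw [hget _ _ (by omega), hgk _ (by omega), hgk k hk']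
            intro h6
            have e : rho ⟨k - 1, by omega⟩ = ⟨k, hk'⟩ := by
              unfold rho
              apply Fin.ext
              dsimp only
              omega
            have := h2 ⟨k - 1, by omega⟩
            rw [e] at this
            exact this (Fin.ext h6).symm
          · exact Or.inl h5
        · by_cases h5 : k % 3 = 2
          · right
            rw [hget _ _ (by omega), hgk _ (by omega), hgk k hk']
            intro h6
            have e : rho ⟨k, hk'⟩ = ⟨k - 2, by omega⟩ := by
              unfold rho
              apply Fin.ext
              dsimp only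
              omega
            have := h2 ⟨k, hk'⟩
            rw [e] at this
            exact this (Fin.ext h6)
          · exact Or.inl h5
  have := key 30 le_rfl
  rw [itc30] at this
  simp at this

end Pool.Agent.R667.SC
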