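import Pool.Agent.R667.SC.Tree
import Pool.Agent.R667.SC.Pet

/-!
# Removing the bridges
-/

open Finset

namespace Pool.Agent.R667.SC.DG

/-- Permutation voltage covers. -/
abbrev volt (G : DG) (F : Type) [Fintype F] (pi : G.D → F → F)
    (h : ∀ d i, pi (G.inv d) (pi d i) = i) : DG where
  V := G.V × F
  D := G.D × F
  src := fun p => (G.src p.1, p.2)
  inv := fun p => (G.inv p.1, pi p.1 p.2)
  inv_inv := fun p => by
    ext
    · exact G.inv_inv p.1
    · exact h p.1 p.2

def voltCover (G : DG) (F : Type) [Fintype F] (pi : G.D → F → F)
    (h : ∀ d i, pi (G.inv d) (pi d i) = i) : Cover (G.volt F pi h) G where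
  fV := fun v => v.1
  fD := fun d => d.1
  src_comm := fun _ => rfl
  inv_comm := fun _ => rfl
  star := by
    rintro ⟨v, i⟩ e he
    refine ⟨(e, i), ⟨?_, rfl⟩, ?_⟩
    · change (G.src e, i) = (v, i)
      rw [he]
    · rintro ⟨d, j⟩ ⟨h1, h2⟩
      have h3 : (G.src d, j) = (v, i) := h1
      have h4 : d = e := h2
      rw [Prod.mk.injEq] at h3
      rw [h4, h3.2]

/-- The three kinds of permutations that are used. -/
def IsRT (p : Fin 30 → Fin 30) : Prop := p = rho ∨ p = (fun i => rho (rho i)) ∨ p = tau

theorem rt_one {p : Fin 30 → Fin 30} (hp : IsRT p) {t : Fin 30 → Bool} {i0 : Fin 30}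
    (h : ∀ j, j ≠ i0 → t j = t (p j)) : t i0 = t (p i0) := by
  have h1 : rho i0 ≠ i0 := rho_ne i0
  have h2 : rho (rho i0) ≠ i0 := by
    intro h3
    have h4 := rho3 i0
    rw [h3] at h4
    exact h1 h4
  rcases hp with rfl | rfl | rfl
  · rw [h _ h1, h _ h2, rho3]
  · have e1 := h _ h1
    have e2 := h _ h2
    dsimp only at e1 e2 ⊢
    rw [rho3] at e1 e2
    rw [e2, e1]
  · have e1 := h _ (tau_ne i0)
    rw [tau_tau] at e1
    exact e1.symm

theorem rt_two {p : Fin 30 → Fin 30} (hp : IsRT p) {a b : Fin 30 → Bool} {i0 : Fin 30}
    (h : ∀ j, a j = b (p j)) (h' : ∀ j, j ≠ i0 → a j = b j) : a i0 = b i0 := by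
  have h1 : rho i0 ≠ i0 := rho_ne i0
  have h2 : rho (rho i0) ≠ i0 := by
    intro h3
    have h4 := rho3 i0
    rw [h3] at h4
    exact h1 h4
  rcases hp with rfl | rfl | rfl
  · rw [h i0, ← h' _ h1, h, ← h' _ h2, h, rho3]
  · rw [h i0]
    dsimp only
    rw [← h' _ h2, h]
    dsimp only
    rw [rho3, ← h' _ h1, h]
    dsimp only
    rw [rho3]
  · rw [h i0, ← h' _ (tau_ne i0), h, tau_tau]

theorem rt_rho {p : Fin 30 → Fin 30} (hp : p = rho ∨ p = (fun i => rho (rho i)))
    {t : Fin 30 → Bool} (h : ∀ j, t j = t (p j)) (j : Fin 30) : t (rho j) = t j := by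
  rcases hp with rfl | rfl
  · exact (h j).symm
  · have := h (rho j)
    dsimp only at this
    rw [rho3] at this
    exact this

theorem stepA (G : DG) (hconn : G.Conn) (hc : G.Cubic) (hns : G.NS) (hbl : ¬ G.BL) :
    ∃ H : DG, Nonempty (Cover H G) ∧ H.Conn ∧ H.NS ∧ H.BL ∧ ¬ H.Colourable := by
  classical
  obtain ⟨T, hT⟩ := exists_tree hconn
  unfold BL at hbl
  push Not at hbl
  obtain ⟨b, s0, hs0, hs0b⟩ := hbl
  -- the side function
  obtain ⟨side, hb1, hb2, hside⟩ : ∃ side : G.V → Bool, side (G.src b) = true ∧
      side (G.src (G.inv b)) = false ∧ ∀ d, d ≠ b → d ≠ G.inv b →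
        side (G.src d) = side (G.src (G.inv d)) := by
    refine ⟨fun v => s0 v == s0 (G.src b), by simp, ?_, fun d h1 h2 => ?_⟩
    · simpa using Ne.symm hs0b
    · dsimp only
      rw [hs0 d h1 h2]
  have hbT : b ∈ T := by
    by_contra hb
    have h1 := hT.conn side (fun d hd => ?_) (G.src b) (G.src (G.inv b))
    · rw [hb1, hb2] at h1
      exact absurd h1 (by simp)
    · refine hside d ?_ ?_
      · rintro rfl; exact hb hd
      · rintro rfl
        have := hT.inv_mem _ hd
        rw [G.inv_inv] at this
        exact hb this
  have hbT' : G.inv b ∈ T := hT.inv_mem b hbT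
  -- orientation
  let O : G.D → Prop := fun d => Fintype.equivFin G.D d < Fintype.equivFin G.D (G.inv d)
  have hO : ∀ d, O (G.inv d) ↔ ¬ O d := by
    intro d
    change Fintype.equivFin G.D (G.inv d) < Fintype.equivFin G.D (G.inv (G.inv d)) ↔
      ¬ (Fintype.equivFin G.D d < Fintype.equivFin G.D (G.inv d))
    rw [G.inv_inv, not_lt]
    constructor
    · exact fun h => h.le
    · intro h
      refine lt_of_le_of_ne h fun h2 => ?_
      exact hns d ((Fintype.equivFin G.D).injective h2)
  let pi : G.D → Fin 30 → Fin 30 := fun d i =>
    if d ∈ T then i else if side (G.src d) = true then (if O d then rho i else rho (rho i))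
      else tau i
  have piT : ∀ d ∈ T, ∀ i, pi d i = i := fun d hd i => if_pos hd
  have piP : ∀ d, d ∉ T → side (G.src d) = true →
      (pi d = rho ∨ pi d = fun i => rho (rho i)) := by
    intro d hd hs
    by_cases h : O d
    · left; funext i
      change (if d ∈ T then i else if side (G.src d) = true then (if O d then rho i else rho (rho i))
        else tau i) = rho i
      rw [if_neg hd, if_pos hs, if_pos h]
    · right; funext i
      change (if d ∈ T then i else if side (G.src d) = true then (if O d then rho i else rho (rho i))
        else tau i) = rho (rho i)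
      rw [if_neg hd, if_pos hs, if_neg h]
  have piQ : ∀ d, d ∉ T → side (G.src d) = false → pi d = tau := by
    intro d hd hs
    funext i
    change (if d ∈ T then i else if side (G.src d) = true then (if O d then rho i else rho (rho i))
      else tau i) = tau i
    rw [if_neg hd, if_neg (by rw [hs]; simp)]
  have piRT : ∀ d, d ∉ T → IsRT (pi d) := by
    intro d hd
    cases hs : side (G.src d) with
    | true =>
      rcases piP d hd hs with h | h
      · exact Or.inl h
      · exact Or.inr (Or.inl h)
    | false => exact Or.inr (Or.inr (piQ d hd hs))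
  have hinvT : ∀ d, d ∉ T → G.inv d ∉ T := by
    intro d hd h
    have := hT.inv_mem _ h
    rw [G.inv_inv] at this
    exact hd this
  have hsideT : ∀ d, d ∉ T → side (G.src (G.inv d)) = side (G.src d) := by
    intro d hd
    refine (hside d ?_ ?_).symm
    · rintro rfl; exact hd hbT
    · rintro rfl; exact hd hbT'
  have hpi : ∀ d i, pi (G.inv d) (pi d i) = i := by
    intro d i
    by_cases hd : d ∈ T
    · rw [piT d hd, piT _ (hT.inv_mem d hd)]
    · have hd' := hinvT d hd
      have hss := hsideT d hd
      cases hs : side (G.src d) with
      | false =>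
        rw [hs] at hss
        rw [piQ d hd hs, piQ _ hd' hss, tau_tau]
      | true =>
        rw [hs] at hss
        change (if G.inv d ∈ T then _ else if side (G.src (G.inv d)) = true then
          (if O (G.inv d) then rho _ else rho (rho _)) else tau _) = i
        have e2 : pi d i = if O d then rho i else rho (rho i) := by
          change (if d ∈ T then i else if side (G.src d) = true then
            (if O d then rho i else rho (rho i)) else tau i) = _
          rw [if_neg hd, if_pos hs]
        rw [if_neg hd', if_pos hss, e2]
        by_cases h : O d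
        · rw [if_pos h, if_neg (by rw [hO]; exact not_not.2 h), rho3]
        · rw [if_neg h, if_pos ((hO d).2 h), rho3]
  -- darts outside the tree, on both sides
  obtain ⟨gP, hgP, hgP1⟩ := hT.p3 hc _ {v | side v = true} le_rfl b hbT hb1
    (by change ¬ (side (G.src (G.inv b)) = true); rw [hb2]; simp) (by
      intro e _ he1 he2
      have he1 : side (G.src e) = true := he1
      have he2 : ¬ side (G.src (G.inv e)) = true := he2
      by_contra h1
      have h2 : e ≠ G.inv b := by
        rintro rfl
        rw [hb2] at he1
        exact absurd he1 (by simp)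
      have h3 := hside e h1 h2
      rw [← h3] at he2
      exact he2 he1)
  obtain ⟨gQ, hgQ, hgQ1⟩ := hT.p3 hc _ {v | side v = false} le_rfl (G.inv b) hbT' hb2
    (by rw [G.inv_inv]; change ¬ (side (G.src b) = false); rw [hb1]; simp) (by
      intro e _ he1 he2
      have he1 : side (G.src e) = false := he1
      have he2 : ¬ side (G.src (G.inv e)) = false := he2
      by_contra h1
      have h2 : e ≠ b := by
        rintro rfl
        rw [hb1] at he1
        exact absurd he1 (by simp)
      have h3 := hside e h2 h1
      rw [← h3] at he2
      exact he2 he1)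
  have hgP1 : side (G.src gP) = true := hgP1
  have hgQ1 : side (G.src gQ) = false := hgQ1
  have hgP2 : side (G.src (G.inv gP)) = true := (hsideT gP hgP).trans hgP1
  have hgQ2 : side (G.src (G.inv gQ)) = false := (hsideT gQ hgQ).trans hgQ1
  refine ⟨G.volt (Fin 30) pi hpi, ⟨G.voltCover (Fin 30) pi hpi⟩, ?_,
    (G.voltCover (Fin 30) pi hpi).ns hns, ?_, ?_⟩
  · -- connected
    intro s hs
    have hs' : ∀ (d : G.D) (i : Fin 30), s (G.src d, i) = s (G.src (G.inv d), pi d i) :=
      fun d i => hs (d, i)
    have h1 : ∀ i u v, s (u, i) = s (v, i) := fun i =>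
      hT.conn (fun v => s (v, i)) fun d hd => by
        have := hs' d i
        rwa [piT d hd] at this
    have h2 : ∀ j, s (G.src b, rho j) = s (G.src b, j) :=
      rt_rho (t := fun j => s (G.src b, j)) (piP gP hgP hgP1) fun j => by
        have := hs' gP j
        rw [h1 j (G.src gP) (G.src b), h1 (pi gP j) (G.src (G.inv gP)) (G.src b)] at this
        exact this
    have h3 : ∀ j, s (G.src b, tau j) = s (G.src b, j) := fun j => by
      have := hs' gQ j
      rw [h1 j (G.src gQ) (G.src b), h1 (pi gQ j) (G.src (G.inv gQ)) (G.src b),
        piQ gQ hgQ hgQ1] at this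
      exact this.symm
    rintro ⟨u, i⟩ ⟨v, j⟩
    rw [h1 i u (G.src b), h1 j v (G.src b)]
    exact petC (fun j => s (G.src b, j)) h2 h3 i j
  · -- no bridges
    rintro ⟨e, i0⟩ s hs
    have hs' : ∀ (d : G.D) (i : Fin 30), (d, i) ≠ (e, i0) → (d, i) ≠ (G.inv e, pi e i0) →
        s (G.src d, i) = s (G.src (G.inv d), pi d i) := fun d i => hs (d, i)
    change s (G.src e, i0) = s (G.src (G.inv e), pi e i0)
    by_cases he : e ∈ T
    · rw [piT e he] at hs' ⊢
      -- levels other than `i0` are constant
      have hlev : ∀ i, i ≠ i0 → ∀ u v, s (u, i) = s (v, i) := fun i hi =>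
        hT.conn (fun v => s (v, i)) fun d hd => by
          have := hs' d i (by simp [hi]) (by simp [hi])
          rwa [piT d hd] at this
      have hlev0 : ∀ d ∈ T, d ≠ e → d ≠ G.inv e → s (G.src d, i0) = s (G.src (G.inv d), i0) := by
        intro d hd h1 h2
        have := hs' d i0 (by simp [h1]) (by simp [h2])
        rwa [piT d hd] at this
      have hnonT : ∀ g, g ∉ T → ∀ j, s (G.src g, j) = s (G.src (G.inv g), pi g j) := by
        intro g hg j
        refine hs' g j ?_ ?_
        · intro h; rw [Prod.mk.injEq] at h; rw [h.1] at hg; exact hg he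
        · intro h; rw [Prod.mk.injEq] at h; rw [h.1] at hg; exact hg (hT.inv_mem e he)
      by_contra hcross
      by_cases heb : e = b ∨ e = G.inv b
      · -- the edge is the bridge
        have hbcross : s (G.src b, i0) ≠ s (G.src (G.inv b), i0) := by
          rcases heb with rfl | rfl
          · exact hcross
          · rw [G.inv_inv] at hcross
            exact Ne.symm hcross
        have hlev0' : ∀ d ∈ T, d ≠ b → d ≠ G.inv b → s (G.src d, i0) = s (G.src (G.inv d), i0) := by
          intro d hd h1 h2
          rcases heb with rfl | rfl
          · exact hlev0 d hd h1 h2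
          · exact hlev0 d hd h2 (by rwa [G.inv_inv])
        have hconst := hT.conn (fun v => xor (s (v, i0)) (side v)) (by
          intro d hd
          by_cases h1 : d = b
          · subst h1
            rw [hb1, hb2]
            cases h3 : s (G.src d, i0) <;> cases h4 : s (G.src (G.inv d), i0) <;> simp_all
          · by_cases h2 : d = G.inv b
            · rw [h2, G.inv_inv, hb1, hb2]
              cases h3 : s (G.src b, i0) <;> cases h4 : s (G.src (G.inv b), i0) <;> simp_all
            · rw [hlev0' d hd h1 h2, hside d h1 h2])
        have hP : ∀ v, side v = true → ∀ j, s (v, j) = s (G.src b, j) := by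
          intro v hv j
          by_cases hj : j = i0
          · subst hj
            have := hconst v (G.src b)
            rw [hv, hb1] at this
            revert this
            cases s (v, j) <;> cases s (G.src b, j) <;> simp
          · exact hlev j hj _ _
        have hQ : ∀ v, side v = false → ∀ j, s (v, j) = s (G.src (G.inv b), j) := by
          intro v hv j
          by_cases hj : j = i0
          · subst hj
            have := hconst v (G.src (G.inv b))
            rw [hv, hb2, Bool.xor_false, Bool.xor_false] at this
            exact this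
          · exact hlev j hj _ _
        have h2 : ∀ j, s (G.src b, rho j) = s (G.src b, j) :=
          rt_rho (t := fun j => s (G.src b, j)) (piP gP hgP hgP1) fun j => by
            have := hnonT gP hgP j
            rw [hP _ hgP1, hP _ hgP2] at this
            exact this
        have h3 : ∀ j, s (G.src (G.inv b), tau j) = s (G.src (G.inv b), j) := fun j => by
          have := hnonT gQ hgQ j
          rw [hQ _ hgQ1, hQ _ hgQ2, piQ gQ hgQ hgQ1] at this
          exact this.symm
        have h4 := petA i0 (fun j => s (G.src b, j)) h2 (by
          intro j hj1 hj2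
          have hj3 : tau j ≠ i0 := by
            rintro rfl
            rw [tau_tau] at hj2
            exact hj2 rfl
          rw [hlev _ hj3 (G.src b) (G.src (G.inv b)), h3, hlev j hj1 (G.src b) (G.src (G.inv b))])
        rw [hlev _ (tau_ne i0) (G.src b) (G.src (G.inv b)), h3] at h4
        exact hbcross h4.symm
      · -- another edge of the tree
        rw [not_or] at heb
        set w := side (G.src e) with hw
        have hw2 : side (G.src (G.inv e)) = w := (hside e heb.1 heb.2).symm
        set K : Set G.V := {v | s (v, i0) ≠ s (G.src b, i0)} with hK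
        have hbe : b ≠ e := Ne.symm heb.1
        have hbe' : b ≠ G.inv e := fun h => heb.2 (by rw [h, G.inv_inv])
        have hKside : ∀ v ∈ K, side v = w := by
          have h1 := hT.conn (fun v => decide (s (v, i0) ≠ s (G.src b, i0) ∧ side v ≠ w)) (by
            intro f hf
            by_cases h1 : f = e
            · subst h1
              rw [hw2, ← hw]
              simp
            · by_cases h2 : f = G.inv e
              · rw [h2, G.inv_inv, hw2, ← hw]
                simp
              · have h3 := hlev0 f hf h1 h2
                by_cases h4 : f = b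
                · rw [h4] at h3 ⊢
                  rw [← h3]
                  simp
                · by_cases h5 : f = G.inv b
                  · rw [h5] at h3 ⊢
                    rw [G.inv_inv] at h3 ⊢
                    rw [h3]
                    simp
                  · rw [h3, hside f h4 h5])
          intro v hv
          have h2 := h1 v (G.src b)
          by_contra h3
          have h4 : decide (s (v, i0) ≠ s (G.src b, i0) ∧ side v ≠ w) = true :=
            decide_eq_true ⟨hv, h3⟩
          rw [h4] at h2
          simp at h2
        -- the end of `e` in `K`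
        obtain ⟨e', he'T, he'1, he'2, he'3⟩ : ∃ e' ∈ T, G.src e' ∈ K ∧ G.src (G.inv e') ∉ K ∧
            (e' = e ∨ e' = G.inv e) := by
          by_cases h1 : G.src e ∈ K
          · refine ⟨e, he, h1, ?_, Or.inl rfl⟩
            intro h2
            have h1 : s (G.src e, i0) ≠ s (G.src b, i0) := h1
            have h2 : s (G.src (G.inv e), i0) ≠ s (G.src b, i0) := h2
            apply hcross
            revert h1 h2
            cases s (G.src e, i0) <;> cases s (G.src (G.inv e), i0) <;> cases s (G.src b, i0) <;> simp
          · refine ⟨G.inv e, hT.inv_mem e he, ?_, by rwa [G.inv_inv], Or.inr rfl⟩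
            have h1 : ¬ s (G.src e, i0) ≠ s (G.src b, i0) := h1
            rw [not_not] at h1
            change s (G.src (G.inv e), i0) ≠ s (G.src b, i0)
            rw [← h1]
            exact Ne.symm hcross
        obtain ⟨g, hgT, hgK⟩ := hT.p3 hc _ K le_rfl e' he'T he'1 he'2 (by
          intro f hf h1 h2
          have h1 : s (G.src f, i0) ≠ s (G.src b, i0) := h1
          have h2 : ¬ s (G.src (G.inv f), i0) ≠ s (G.src b, i0) := h2
          rw [not_not] at h2
          have h3 : f = e ∨ f = G.inv e := by
            by_contra h4
            rw [not_or] at h4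
            exact h1 ((hlev0 f hf h4.1 h4.2).trans h2)
          have he'1 : s (G.src e', i0) ≠ s (G.src b, i0) := he'1
          have he'2 : ¬ s (G.src (G.inv e'), i0) ≠ s (G.src b, i0) := he'2
          rw [not_not] at he'2
          rcases h3 with rfl | rfl <;> rcases he'3 with rfl | rfl
          · rfl
          · rw [G.inv_inv] at he'2; exact absurd he'2 h1
          · rw [G.inv_inv] at h2; exact absurd h2 he'1
          · rfl)
        have hgl := hnonT g hgT
        have hyK : s (G.src g, i0) = s (G.src (G.inv g), i0) :=
          rt_two (piRT g hgT) (a := fun j => s (G.src g, j)) (b := fun j => s (G.src (G.inv g), j))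
            hgl (fun j hj => hlev j hj _ _)
        have hgK : s (G.src g, i0) ≠ s (G.src b, i0) := hgK
        have hgw : side (G.src g) = w := hKside _ hgK
        -- the functions `t`, `t'`
        set t : Fin 30 → Bool := fun j => s (G.src b, j) with ht
        set t' : Fin 30 → Bool := fun j => s (G.src g, j) with ht'
        have htt' : ∀ j, j ≠ i0 → t' j = t j := fun j hj => hlev j hj _ _
        have htt0 : t' i0 ≠ t i0 := hgK
        have hyy : ∀ j, s (G.src (G.inv g), j) = t' j := by
          intro j
          by_cases hj : j = i0
          · subst hj; exact hyK.symm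
          · exact hlev j hj _ _
        have ht'pi : ∀ j, t' j = t' (pi g j) := by
          intro j
          have := hgl j
          rw [hyy] at this
          exact this
        have hout : ∀ v, side v ≠ w → ∀ j, s (v, j) = t j := by
          intro v hv j
          by_cases hj : j = i0
          · subst hj
            by_contra h
            exact hv (hKside v h)
          · exact hlev j hj _ _
        cases hwv : w with
        | true =>
          have hp := piP g hgT (hgw.trans hwv)
          have hr := rt_rho hp ht'pi
          have htau : ∀ j, t (tau j) = t j := by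
            intro j
            have := hnonT gQ hgQ j
            rw [hout _ (by rw [hgQ1, hwv]; simp), hout _ (by rw [hgQ2, hwv]; simp),
              piQ gQ hgQ hgQ1] at this
            exact this.symm
          have h4 := petB i0 t htau (by
            intro j h1 h2
            rw [← htt' _ h2, hr, htt' j h1])
          rw [← htt' _ (rho_ne i0), hr] at h4
          exact htt0 h4
        | false =>
          have hp := piQ g hgT (hgw.trans hwv)
          rw [hp] at ht'pi
          have hrho : ∀ j, t (rho j) = t j := rt_rho (piP gP hgP hgP1) (by
            intro j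
            have := hnonT gP hgP j
            rw [hout _ (by rw [hgP1, hwv]; simp), hout _ (by rw [hgP2, hwv]; simp)] at this
            exact this)
          have h4 := petA i0 t hrho (by
            intro j h1 h2
            have h3 : tau j ≠ i0 := by
              rintro rfl
              rw [tau_tau] at h2
              exact h2 rfl
            rw [← htt' _ h3, ← ht'pi, htt' j h1])
          rw [← htt' _ (tau_ne i0), ← ht'pi] at h4
          exact htt0 h4
    · -- an edge outside the tree
      have hs2 : ∀ (d : G.D) (i : Fin 30), d ∈ T → s (G.src d, i) = s (G.src (G.inv d), i) := by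
        intro d i hd
        have := hs' d i (by
          intro h; rw [Prod.mk.injEq] at h; rw [h.1] at hd; exact he hd) (by
          intro h; rw [Prod.mk.injEq] at h; rw [h.1] at hd; exact hinvT e he hd)
        rwa [piT d hd] at this
      have h1 : ∀ i u v, s (u, i) = s (v, i) := fun i =>
        hT.conn (fun v => s (v, i)) fun d hd => hs2 d i hd
      rw [h1 _ (G.src (G.inv e)) (G.src e)]
      refine rt_one (piRT e he) (t := fun j => s (G.src e, j)) fun j hj => ?_
      have := hs' e j (by simp [hj]) (by
        intro h; rw [Prod.mk.injEq] at h; exact hns e h.1.symm)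
      rw [h1 _ (G.src (G.inv e)) (G.src e)] at this
      exact this
  · -- not colourable
    rintro ⟨c, hc1, hc2⟩
    have hcub : (G.volt (Fin 30) pi hpi).Cubic := (G.voltCover (Fin 30) pi hpi).cubic hc
    have hns' : (G.volt (Fin 30) pi hpi).NS := (G.voltCover (Fin 30) pi hpi).ns hns
    refine pet_not_colourable (fun i => c (b, i)) ?_ ?_
    · intro i
      have hp' := parity' hcub hns' hc1 hc2 {v | side v.1 = false ∧ (v.2 = i ∨ v.2 = tau i)}
        {(G.inv b, i), (G.inv b, tau i)} (by
        rintro ⟨d, j⟩
        change _ ↔ (side (G.src d) = false ∧ (j = i ∨ j = tau i)) ∧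
          ¬ (side (G.src (G.inv d)) = false ∧ (pi d j = i ∨ pi d j = tau i))
        simp only [mem_insert, mem_singleton, Prod.mk.injEq]
        symm
        constructor
        · rintro ⟨⟨h1, h2⟩, h3⟩
          by_cases h4 : d = G.inv b
          · rcases h2 with h2 | h2
            · exact Or.inl ⟨h4, h2⟩
            · exact Or.inr ⟨h4, h2⟩
          · exfalso
            apply h3
            have h5 : d ≠ b := by
              rintro rfl
              rw [hb1] at h1
              exact absurd h1 (by simp)
            refine ⟨(hside d h5 h4).symm.trans h1, ?_⟩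
            by_cases h6 : d ∈ T
            · rw [piT d h6]; exact h2
            · rw [piQ d h6 h1]
              rcases h2 with rfl | rfl
              · exact Or.inr rfl
              · exact Or.inl (tau_tau i)
        · rintro (⟨rfl, rfl⟩ | ⟨rfl, rfl⟩)
          · refine ⟨⟨hb2, Or.inl rfl⟩, fun h => ?_⟩
            rw [G.inv_inv, hb1] at h
            exact absurd h.1 (by simp)
          · refine ⟨⟨hb2, Or.inr rfl⟩, fun h => ?_⟩
            rw [G.inv_inv, hb1] at h
            exact absurd h.1 (by simp))
      rw [sum_pair (by simp [Ne.symm (tau_ne i)])] at hp'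
      have h1 := phi_sum2 hp'
      have h2 : ∀ j, c (G.inv b, j) = c (b, j) := fun j => by
        have := hc1 (b, j)
        have e : (G.volt (Fin 30) pi hpi).inv (b, j) = (G.inv b, j) := by
          change (G.inv b, pi b j) = _
          rw [piT b hbT]
        rwa [e] at this
      rw [h2, h2] at h1
      exact h1.symm
    · intro i
      have h1 : rho i ≠ i := rho_ne i
      have h2 : rho (rho i) ≠ i := by
        intro h3
        have h4 := rho3 i
        rw [h3] at h4
        exact h1 h4
      have h3 : rho (rho i) ≠ rho i := rho_ne _
      have hp' := parity' hcub hns' hc1 hc2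
        {v | side v.1 = true ∧ (v.2 = i ∨ v.2 = rho i ∨ v.2 = rho (rho i))}
        {(b, i), (b, rho i), (b, rho (rho i))} (by
        rintro ⟨d, j⟩
        change _ ↔ (side (G.src d) = true ∧ (j = i ∨ j = rho i ∨ j = rho (rho i))) ∧
          ¬ (side (G.src (G.inv d)) = true ∧
            (pi d j = i ∨ pi d j = rho i ∨ pi d j = rho (rho i)))
        simp only [mem_insert, mem_singleton, Prod.mk.injEq]
        symm
        constructor
        · rintro ⟨⟨h1, h2⟩, h3⟩
          by_cases h4 : d = b
          · rcases h2 with h2 | h2 | h2
            · exact Or.inl ⟨h4, h2⟩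
            · exact Or.inr (Or.inl ⟨h4, h2⟩)
            · exact Or.inr (Or.inr ⟨h4, h2⟩)
          · exfalso
            apply h3
            have h5 : d ≠ G.inv b := by
              rintro rfl
              rw [hb2] at h1
              exact absurd h1 (by simp)
            refine ⟨(hside d h4 h5).symm.trans h1, ?_⟩
            by_cases h6 : d ∈ T
            · rw [piT d h6]; exact h2
            · rcases piP d h6 h1 with h7 | h7 <;> rw [h7] <;>
                rcases h2 with rfl | rfl | rfl <;> simp [rho3]
        · rintro (⟨rfl, rfl⟩ | ⟨rfl, rfl⟩ | ⟨rfl, rfl⟩)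
          · refine ⟨⟨hb1, Or.inl rfl⟩, fun h => ?_⟩
            rw [hb2] at h
            exact absurd h.1 (by simp)
          · refine ⟨⟨hb1, Or.inr (Or.inl rfl)⟩, fun h => ?_⟩
            rw [hb2] at h
            exact absurd h.1 (by simp)
          · refine ⟨⟨hb1, Or.inr (Or.inr rfl)⟩, fun h => ?_⟩
            rw [hb2] at h
            exact absurd h.1 (by simp))
      rw [sum_insert (by simp [Ne.symm h1, Ne.symm h2]), sum_pair (by simp [Ne.symm h3])] at hp'
      exact Ne.symm (phi_sum3 hp').1

end Pool.Agent.R667.SC.DG
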