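import Pool.Agent.R667.SC.StepA

/-!
# Making the graph simple
-/

open Finset

namespace Pool.Agent.R667.SC.DG

/-- No loops and no parallel edges. -/
def Simple (G : DG) : Prop :=
  (∀ d, G.src d ≠ G.src (G.inv d)) ∧
    ∀ d e, G.src d = G.src e → G.src (G.inv d) = G.src (G.inv e) → d = e

theorem loopless {G : DG} (hc : G.Cubic) (hns : G.NS) (hbl : G.BL) (d : G.D) :
    G.src d ≠ G.src (G.inv d) := by
  classical
  intro hd
  obtain ⟨h, hh1, hh2, hh3⟩ : ∃ h, G.src h = G.src d ∧ h ≠ d ∧ h ≠ G.inv d ∧
      ∀ e, G.src e = G.src d → e = d ∨ e = G.inv d ∨ e = h := by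
    obtain ⟨a, b, c, h1, h2, h3, h4⟩ := hc.three (G.src d)
    have hda := (h4 d).1 rfl
    have hdb := (h4 (G.inv d)).1 hd.symm
    have hne := hns d
    rcases hda with rfl | rfl | rfl <;> rcases hdb with h5 | h5 | h5
    · exact absurd h5 hne
    · refine ⟨c, (h4 c).2 (by simp), Ne.symm h2, by rw [h5]; exact Ne.symm h3, fun e he => ?_⟩
      rw [h5]; exact (h4 e).1 he
    · refine ⟨b, (h4 b).2 (by simp), Ne.symm h1, by rw [h5]; exact h3, fun e he => ?_⟩
      rw [h5]; rcases (h4 e).1 he with h | h | h <;> simp [h]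
    · refine ⟨c, (h4 c).2 (by simp), Ne.symm h3, by rw [h5]; exact Ne.symm h2, fun e he => ?_⟩
      rw [h5]; rcases (h4 e).1 he with h | h | h <;> simp [h]
    · exact absurd h5 hne
    · refine ⟨a, (h4 a).2 (by simp), h1, by rw [h5]; exact h2, fun e he => ?_⟩
      rw [h5]; rcases (h4 e).1 he with h | h | h <;> simp [h]
    · refine ⟨b, (h4 b).2 (by simp), h3, by rw [h5]; exact Ne.symm h1, fun e he => ?_⟩
      rw [h5]; rcases (h4 e).1 he with h | h | h <;> simp [h]
    · refine ⟨a, (h4 a).2 (by simp), h2, by rw [h5]; exact h1, fun e he => ?_⟩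
      rw [h5]; rcases (h4 e).1 he with h | h | h <;> simp [h]
    · exact absurd h5 hne
  have key := hbl h (fun v => decide (v = G.src d)) (fun e he1 he2 => by
    have h5 : G.src e = G.src d ↔ G.src (G.inv e) = G.src d := by
      constructor
      · intro h6
        rcases hh3.2 e h6 with rfl | rfl | rfl
        · exact hd.symm
        · rw [G.inv_inv]
        · exact absurd rfl he1
      · intro h6
        rcases hh3.2 _ h6 with h7 | h7 | h7
        · rw [← G.inv_inv e, h7]; exact hd.symm
        · rw [inv_inj h7]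
        · exact absurd (by rw [← h7, G.inv_inv]) he2
    simp only [h5])
  have h6 : G.src (G.inv h) = G.src d := by
    simp only [hh1, decide_true] at key
    exact of_decide_eq_true key.symm
  rcases hh3.2 _ h6 with h7 | h7 | h7
  · exact hh3.1 (by rw [← h7, G.inv_inv])
  · exact hh2 (inv_inj h7)
  · exact hns h h7

theorem flip_const {ι : Type} [Fintype ι] [DecidableEq ι] {t : (ι → Bool) → Bool}
    (h : ∀ k x, t (Function.update k x (!k x)) = t k) (k k' : ι → Bool) : t k = t k' := by
  have key : ∀ S : Finset ι, t (fun e => if e ∈ S then k' e else k e) = t k := by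
    intro S
    induction S using Finset.induction_on with
    | empty => simp
    | insert x S hx ih =>
      rw [← ih]
      by_cases hkx : k' x = k x
      · congr 1
        funext e
        by_cases he : e = x
        · subst he; simp [hx, hkx]
        · simp [he]
      · rw [← h (fun e => if e ∈ S then k' e else k e) x]
        congr 1
        funext e
        by_cases he : e = x
        · subst he
          simp only [mem_insert, true_or, if_true, Function.update_self, hx, if_false]
          revert hkx
          cases k' e <;> cases k e <;> simp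
        · simp [he, Function.update_of_ne]
  have := key univ
  simp only [mem_univ, if_true] at this
  exact this.symm

/-- A simple connected cover. -/
theorem stepB1 (G : DG) (hconn : G.Conn) (hc : G.Cubic) (hns : G.NS) (hbl : G.BL) :
    ∃ (H : DG) (f : Cover H G), H.Conn ∧ H.Simple ∧ ∃ gd : G.D → H.D, ∀ d, f.fD (gd d) = d := by
  classical
  obtain ⟨T, hT⟩ := exists_tree hconn
  let O : G.D → Prop := fun d => Fintype.equivFin G.D d < Fintype.equivFin G.D (G.inv d)
  have hO : ∀ d, O (G.inv d) ↔ ¬ O d := by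
    intro d
    change Fintype.equivFin G.D (G.inv d) < Fintype.equivFin G.D (G.inv (G.inv d)) ↔
      ¬ (Fintype.equivFin G.D d < Fintype.equivFin G.D (G.inv d))
    rw [G.inv_inv, not_lt]
    constructor
    · exact fun h => h.le
    · intro h
      refine lt_of_le_of_ne h fun h2 => ?_
      exact hns d ((Fintype.equivFin G.D).injective h2)
  have hinvT : ∀ d, d ∉ T → G.inv d ∉ T := by
    intro d hd h
    have := hT.inv_mem _ h
    rw [G.inv_inv] at this
    exact hd this
  let E := {d : G.D // O d ∧ d ∉ T}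
  let pi : G.D → (E → Bool) → (E → Bool) := fun d k e => xor (k e) (decide (e.1 = d ∨ e.1 = G.inv d))
  have hpi : ∀ d k, pi (G.inv d) (pi d k) = k := by
    intro d k
    funext e
    change xor (xor (k e) (decide (e.1 = d ∨ e.1 = G.inv d)))
      (decide (e.1 = G.inv d ∨ e.1 = G.inv (G.inv d))) = k e
    rw [G.inv_inv, Bool.xor_assoc]
    have h1 : (e.1 = G.inv d ∨ e.1 = d) ↔ (e.1 = d ∨ e.1 = G.inv d) := or_comm
    rw [decide_eq_decide.2 h1, Bool.xor_self, Bool.xor_false]
  have piT : ∀ d ∈ T, ∀ k, pi d k = k := by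
    intro d hd k
    funext e
    change xor (k e) (decide (e.1 = d ∨ e.1 = G.inv d)) = k e
    have h1 : ¬ (e.1 = d ∨ e.1 = G.inv d) := by
      rintro (h | h)
      · exact e.2.2 (h ▸ hd)
      · exact e.2.2 (h ▸ hT.inv_mem d hd)
    rw [decide_eq_false h1, Bool.xor_false]
  refine ⟨G.volt (E → Bool) pi hpi, G.voltCover (E → Bool) pi hpi, ?_, ⟨?_, ?_⟩,
    fun d => (d, fun _ => false), fun d => rfl⟩
  · intro s hs
    have hs' : ∀ (d : G.D) (k : E → Bool), s (G.src d, k) = s (G.src (G.inv d), pi d k) :=
      fun d k => hs (d, k)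
    have h1 : ∀ k u v, s (u, k) = s (v, k) := fun k =>
      hT.conn (fun v => s (v, k)) fun d hd => by
        have := hs' d k
        rwa [piT d hd] at this
    rintro ⟨u, k⟩ ⟨v, k'⟩
    rw [h1 k' v u]
    refine flip_const (t := fun k => s (u, k)) (fun k x => ?_) k k'
    have h2 := hs' x.1 k
    rw [h1 k _ u, h1 _ (G.src (G.inv x.1)) u] at h2
    rw [h2]
    congr 2
    funext e
    change _ = xor (k e) (decide (e.1 = x.1 ∨ e.1 = G.inv x.1))
    by_cases he : e = x
    · subst he
      simp
    · have h3 : ¬ (e.1 = x.1 ∨ e.1 = G.inv x.1) := by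
        rintro (h | h)
        · exact he (Subtype.ext h)
        · have h4 := e.2.1
          rw [h, hO] at h4
          exact h4 x.2.1
      rw [decide_eq_false h3, Bool.xor_false, Function.update_of_ne he]
  · rintro ⟨d, k⟩ h
    exact loopless hc hns hbl d (congrArg Prod.fst h)
  · rintro ⟨d, k⟩ ⟨e, k'⟩ h1 h2
    have h1' : G.src d = G.src e := congrArg Prod.fst h1
    have hk : k = k' := congrArg Prod.snd h1
    have h2' : G.src (G.inv d) = G.src (G.inv e) := congrArg Prod.fst h2
    have h3 : pi d k = pi e k' := congrArg Prod.snd h2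
    subst hk
    have h4 : ∀ x : E, (x.1 = d ∨ x.1 = G.inv d) ↔ (x.1 = e ∨ x.1 = G.inv e) := by
      intro x
      have h5 : xor (k x) (decide (x.1 = d ∨ x.1 = G.inv d)) =
        xor (k x) (decide (x.1 = e ∨ x.1 = G.inv e)) := congrFun h3 x
      rw [← decide_eq_decide]
      have h6 : ∀ a b c : Bool, xor a b = xor a c → b = c := by decide
      exact h6 _ _ _ h5
    have hx : ∀ y, y ∉ T → ∃ x : E, x.1 = y ∨ x.1 = G.inv y := by
      intro y hy
      by_cases hOy : O y
      · exact ⟨⟨y, hOy, hy⟩, Or.inl rfl⟩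
      · exact ⟨⟨G.inv y, (hO y).2 hOy, hinvT y hy⟩, Or.inr rfl⟩
    have hde : d = e := by
      by_cases hd : d ∈ T
      · by_cases he : e ∈ T
        · exact hT.no_parallel hd he h1' h2'
        · exfalso
          obtain ⟨x, hx⟩ := hx e he
          rcases (h4 x).2 hx with h5 | h5
          · exact x.2.2 (h5 ▸ hd)
          · exact x.2.2 (h5 ▸ hT.inv_mem d hd)
      · obtain ⟨x, hx⟩ := hx d hd
        have h5 := (h4 x).1 hx
        have h6 : d = e ∨ d = G.inv e := by
          rcases hx with h7 | h7 <;> rcases h5 with h8 | h8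
          · exact Or.inl (h7.symm.trans h8)
          · exact Or.inr (h7.symm.trans h8)
          · right; rw [← h8, h7, G.inv_inv]
          · exact Or.inl (inv_inj (h7.symm.trans h8))
        rcases h6 with h6 | h6
        · exact h6
        · exfalso
          apply loopless hc hns hbl d
          rw [h1', h6, G.inv_inv]
    rw [hde]

open Classical in
/-- Every edge `d, inv d` of `G` is replaced by two copies of `G1` cut at an edge. -/
noncomputable abbrev blow (G G1 : DG) (gd : G.D → G1.D) (hns : G1.NS) : DG where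
  V := G.V ⊕ (G.D × G1.V)
  D := G.D ⊕ (G.D × G1.D)
  src := Sum.elim (fun d => Sum.inl (G.src d)) (fun p => Sum.inr (p.1, G1.src p.2))
  inv := Sum.elim (fun d => Sum.inr (d, G1.inv (gd d)))
    (fun p => if p.2 = gd p.1 then Sum.inr (G.inv p.1, gd (G.inv p.1)) else
      if p.2 = G1.inv (gd p.1) then Sum.inl p.1 else Sum.inr (p.1, G1.inv p.2))
  inv_inv := by
    rintro (d | ⟨c, g⟩)
    · have h : G1.inv (gd d) ≠ gd d := hns _
      simp [h]
    · simp only [Sum.elim_inr]
      by_cases h1 : g = gd c
      · subst h1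
        simp [G.inv_inv]
      · rw [if_neg h1]
        by_cases h2 : g = G1.inv (gd c)
        · subst h2
          simp
        · rw [if_neg h2]
          simp only [Sum.elim_inr]
          have h3 : G1.inv g ≠ gd c := fun h => h2 (by rw [← h, G1.inv_inv])
          have h4 : G1.inv g ≠ G1.inv (gd c) := fun h => h1 (inv_inj h)
          rw [if_neg h3, if_neg h4, G1.inv_inv]

section
variable {G G1 : DG} {gd : G.D → G1.D} (hns1 : G1.NS)

theorem blow_inv_inl (d : G.D) :
    (blow G G1 gd hns1).inv (Sum.inl d) = Sum.inr (d, G1.inv (gd d)) := rfl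

theorem blow_inv_gd (c : G.D) :
    (blow G G1 gd hns1).inv (Sum.inr (c, gd c)) = Sum.inr (G.inv c, gd (G.inv c)) := by
  simp [blow]

theorem blow_inv_inv (c : G.D) :
    (blow G G1 gd hns1).inv (Sum.inr (c, G1.inv (gd c))) = Sum.inl c := by
  have h : G1.inv (gd c) ≠ gd c := hns1 _
  simp [blow, h]

theorem blow_inv_other (c : G.D) (g : G1.D) (h1 : g ≠ gd c) (h2 : g ≠ G1.inv (gd c)) :
    (blow G G1 gd hns1).inv (Sum.inr (c, g)) = Sum.inr (c, G1.inv g) := by
  simp [blow, h1, h2]

end

theorem stepB2 (G G1 : DG) (hconn : G.Conn) (hc : G.Cubic) (hns : G.NS) (hbl : G.BL)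
    (hcol : ¬ G.Colourable) (f : Cover G1 G) (hconn1 : G1.Conn) (hs1 : G1.Simple)
    (gd : G.D → G1.D) (hgd : ∀ d, f.fD (gd d) = d) :
    ∃ H : DG, Nonempty (Cover H G) ∧ H.Conn ∧ H.BL ∧ H.Simple ∧ ¬ H.Colourable := by
  classical
  have hns1 : G1.NS := f.ns hns
  have hbl1 : G1.BL := f.bl hbl hns
  let H := blow G G1 gd hns1
  let F : Cover H G :=
    { fV := Sum.elim id (fun p => f.fV p.2)
      fD := Sum.elim id (fun p => f.fD p.2)
      src_comm := by
        rintro (d | ⟨c, g⟩)
        · rfl
        · exact f.src_comm g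
      inv_comm := by
        rintro (d | ⟨c, g⟩)
        · change f.fD (G1.inv (gd d)) = G.inv d
          rw [f.inv_comm, hgd]
        · by_cases h1 : g = gd c
          · subst h1
            rw [blow_inv_gd]
            change f.fD (gd (G.inv c)) = G.inv (f.fD (gd c))
            rw [hgd, hgd]
          · by_cases h2 : g = G1.inv (gd c)
            · subst h2
              rw [blow_inv_inv]
              change c = G.inv (f.fD (G1.inv (gd c)))
              rw [f.inv_comm, hgd, G.inv_inv]
            · rw [blow_inv_other hns1 c g h1 h2]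
              exact f.inv_comm g
      star := by
        rintro (x | ⟨c, w⟩) e he
        · refine ⟨Sum.inl e, ⟨?_, rfl⟩, ?_⟩
          · change Sum.inl (G.src e) = Sum.inl x
            rw [show G.src e = x from he]
          · rintro (d | ⟨c, g⟩) ⟨h1, h2⟩
            · exact congrArg Sum.inl h2
            · exact (Sum.inr_ne_inl h1).elim
        · obtain ⟨g, ⟨h1, h2⟩, h3⟩ := f.star w e he
          refine ⟨Sum.inr (c, g), ⟨?_, h2⟩, ?_⟩
          · change Sum.inr (c, G1.src g) = Sum.inr (c, w)
            rw [h1]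
          · rintro (d | ⟨c', g'⟩) ⟨h4, h5⟩
            · exact (Sum.inl_ne_inr h4).elim
            · have h6 : (c', G1.src g') = (c, w) := Sum.inr_injective h4
              rw [Prod.mk.injEq] at h6
              have h7 := h3 g' ⟨h6.2, h5⟩
              rw [h6.1, h7] }
  have hcH : H.Cubic := F.cubic hc
  have hnsH : H.NS := F.ns hns
  refine ⟨H, ⟨F⟩, ?_, F.bl hbl hns, ⟨?_, ?_⟩, ?_⟩
  · -- connected
    intro s hs
    have hcopy : ∀ (c : G.D) (w w' : G1.V), s (Sum.inr (c, w)) = s (Sum.inr (c, w')) := by
      intro c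
      have h1 : ∀ g, g ≠ gd c → g ≠ G1.inv (gd c) →
          s (Sum.inr (c, G1.src g)) = s (Sum.inr (c, G1.src (G1.inv g))) := by
        intro g h1 h2
        have := hs (Sum.inr (c, g))
        rw [blow_inv_other hns1 c g h1 h2] at this
        exact this
      have h2 := hbl1 (gd c) (fun w => s (Sum.inr (c, w))) h1
      refine hconn1 (fun w => s (Sum.inr (c, w))) fun g => ?_
      by_cases h3 : g = gd c
      · rw [h3]; exact h2
      · by_cases h4 : g = G1.inv (gd c)
        · rw [h4, G1.inv_inv]; exact h2.symm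
        · exact h1 g h3 h4
    have hinl : ∀ d : G.D, ∀ w, s (Sum.inl (G.src d)) = s (Sum.inr (d, w)) := by
      intro d w
      have h1 : s (Sum.inl (G.src d)) = s (Sum.inr (d, G1.src (G1.inv (gd d)))) := hs (Sum.inl d)
      rw [h1]
      exact hcopy d _ _
    have hdd : ∀ d : G.D, ∀ w, s (Sum.inr (d, w)) = s (Sum.inr (G.inv d, w)) := by
      intro d w
      have h1 := hs (Sum.inr (d, gd d))
      rw [blow_inv_gd] at h1
      have h2 : s (Sum.inr (d, G1.src (gd d))) = s (Sum.inr (G.inv d, G1.src (gd (G.inv d)))) := h1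
      rw [hcopy d w (G1.src (gd d)), h2]
      exact hcopy _ _ _
    have hV : ∀ x y, s (Sum.inl x) = s (Sum.inl y) :=
      hconn (fun x => s (Sum.inl x)) fun d => by
        change s (Sum.inl (G.src d)) = s (Sum.inl (G.src (G.inv d)))
        rw [hinl d (G1.src (gd d)), hinl (G.inv d) (G1.src (gd d)), hdd]
    rintro (x | ⟨c, w⟩) (y | ⟨c', w'⟩)
    · exact hV x y
    · rw [← hinl]; exact hV _ _
    · rw [← hinl]; exact hV _ _
    · rw [← hinl, ← hinl]; exact hV _ _
  · -- no loops
    rintro (d | ⟨c, g⟩) h
    · exact (Sum.inl_ne_inr h).elim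
    · by_cases h1 : g = gd c
      · subst h1
        rw [blow_inv_gd] at h
        have h2 : (c, G1.src (gd c)) = (G.inv c, G1.src (gd (G.inv c))) := Sum.inr_injective h
        exact hns c (congrArg Prod.fst h2).symm
      · by_cases h2 : g = G1.inv (gd c)
        · subst h2
          rw [blow_inv_inv] at h
          exact (Sum.inr_ne_inl h).elim
        · rw [blow_inv_other hns1 c g h1 h2] at h
          have h3 : (c, G1.src g) = (c, G1.src (G1.inv g)) := Sum.inr_injective h
          exact hs1.1 g (congrArg Prod.snd h3)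
  · -- no parallel edges
    have hcase : ∀ (c : G.D) (g : G1.D), (g = gd c ∧ H.inv (Sum.inr (c, g)) =
        Sum.inr (G.inv c, gd (G.inv c))) ∨ (g = G1.inv (gd c) ∧ H.inv (Sum.inr (c, g)) = Sum.inl c) ∨
        (H.inv (Sum.inr (c, g)) = Sum.inr (c, G1.inv g)) := by
      intro c g
      by_cases h1 : g = gd c
      · left
        subst h1
        exact ⟨rfl, blow_inv_gd hns1 c⟩
      · by_cases h2 : g = G1.inv (gd c)
        · right; left
          subst h2
          exact ⟨rfl, blow_inv_inv hns1 c⟩
        · right; right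
          exact blow_inv_other hns1 c g h1 h2
    rintro (d | ⟨c, g⟩) (d' | ⟨c', g'⟩) h1 h2
    · have h3 : (d, G1.src (G1.inv (gd d))) = (d', G1.src (G1.inv (gd d'))) :=
        Sum.inr_injective h2
      have h4 : d = d' := congrArg Prod.fst h3
      rw [h4]
    · exact (Sum.inl_ne_inr h1).elim
    · exact (Sum.inr_ne_inl h1).elim
    · have h3 : (c, G1.src g) = (c', G1.src g') := Sum.inr_injective h1
      rw [Prod.mk.injEq] at h3
      obtain ⟨rfl, h3⟩ := h3
      rcases hcase c g with ⟨h4, h5⟩ | ⟨h4, h5⟩ | h5 <;>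
        rcases hcase c g' with ⟨h6, h7⟩ | ⟨h6, h7⟩ | h7 <;> rw [h5, h7] at h2
      · rw [h4, h6]
      · exact (Sum.inr_ne_inl h2).elim
      · have h8 : (G.inv c, G1.src (gd (G.inv c))) = (c, G1.src (G1.inv g')) :=
          Sum.inr_injective h2
        exact absurd (congrArg Prod.fst h8) (hns c)
      · exact absurd h2 (by simp [H])
      · rw [h4, h6]
      · exact (Sum.inl_ne_inr h2).elim
      · have h8 : (c, G1.src (G1.inv g)) = (G.inv c, G1.src (gd (G.inv c))) :=
          Sum.inr_injective h2
        exact absurd (congrArg Prod.fst h8).symm (hns c)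
      · exact (Sum.inr_ne_inl h2).elim
      · have h8 : (c, G1.src (G1.inv g)) = (c, G1.src (G1.inv g')) := Sum.inr_injective h2
        rw [hs1.2 g g' h3 (congrArg Prod.snd h8)]
  · -- not colourable
    rintro ⟨c, hc1, hc2⟩
    apply hcol
    have hpar : ∀ d, c (Sum.inr (d, gd d)) = c (Sum.inr (d, G1.inv (gd d))) := by
      intro d
      have hp := parity' hcH hnsH hc1 hc2 {v | ∃ w, v = Sum.inr (d, w)}
        {Sum.inr (d, gd d), Sum.inr (d, G1.inv (gd d))} (by
        intro y
        rw [mem_insert, mem_singleton]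
        constructor
        · rintro (rfl | rfl)
          · refine ⟨⟨G1.src (gd d), rfl⟩, ?_⟩
            rintro ⟨w, hw⟩
            rw [blow_inv_gd] at hw
            have h8 : (G.inv d, G1.src (gd (G.inv d))) = (d, w) := Sum.inr_injective hw
            exact hns d (congrArg Prod.fst h8)
          · refine ⟨⟨G1.src (G1.inv (gd d)), rfl⟩, ?_⟩
            rintro ⟨w, hw⟩
            rw [blow_inv_inv] at hw
            exact (Sum.inl_ne_inr hw).elim
        · rintro ⟨⟨w, hw⟩, h2⟩
          rcases y with e | ⟨e, g⟩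
          · exact (Sum.inl_ne_inr hw).elim
          · have h8 : (e, G1.src g) = (d, w) := Sum.inr_injective hw
            rw [Prod.mk.injEq] at h8
            obtain ⟨rfl, -⟩ := h8
            by_contra hcon
            rw [not_or] at hcon
            apply h2
            refine ⟨G1.src (G1.inv g), ?_⟩
            rw [blow_inv_other hns1 e g (fun h => hcon.1 (by rw [h])) (fun h => hcon.2 (by rw [h]))]
            rfl)
      have hne : (Sum.inr (d, gd d) : G.D ⊕ (G.D × G1.D)) ≠ Sum.inr (d, G1.inv (gd d)) := by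
        intro h
        have h8 := Sum.inr_injective h
        rw [Prod.mk.injEq] at h8
        exact hns1 _ h8.2.symm
      rw [sum_pair hne] at hp
      exact phi_sum2 hp
    have hinl : ∀ d, c (Sum.inl d) = c (Sum.inr (d, gd d)) := by
      intro d
      rw [hpar]
      exact (hc1 (Sum.inl d)).symm
    refine ⟨fun d => c (Sum.inl d), fun d => ?_, fun d d' h1 h2 => ?_⟩
    · dsimp only
      rw [hinl, hinl]
      have := hc1 (Sum.inr (d, gd d))
      rw [blow_inv_gd] at this
      exact this
    · have h3 : (Sum.inl d : G.D ⊕ (G.D × G1.D)) = Sum.inl d' :=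
        hc2 (Sum.inl d) (Sum.inl d') (by
          change Sum.inl (G.src d) = Sum.inl (G.src d')
          rw [h1]) h2
      exact Sum.inl_injective h3

end Pool.Agent.R667.SC.DG
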