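import Pool.Agent.R667.SC.Base

/-!
# Spanning trees
-/

open Finset

namespace Pool.Agent.R667.SC.DG

variable {G : DG}

/-- `T` is (the set of edge-ends of) a spanning tree. -/
structure IsTree (G : DG) (T : Set G.D) : Prop where
  inv_mem : ∀ d ∈ T, G.inv d ∈ T
  conn : ∀ s : G.V → Bool, (∀ d ∈ T, s (G.src d) = s (G.src (G.inv d))) → ∀ u v, s u = s v
  sep : ∀ d ∈ T, ∃ s : G.V → Bool, s (G.src d) ≠ s (G.src (G.inv d)) ∧
    ∀ e ∈ T, e ≠ d → e ≠ G.inv d → s (G.src e) = s (G.src (G.inv e))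

theorem exists_tree (h : G.Conn) : ∃ T, IsTree G T := by
  classical
  obtain ⟨T, hT⟩ := exists_minimal_of_wellFoundedLT (fun T : Set G.D =>
    (∀ d ∈ T, G.inv d ∈ T) ∧
    ∀ s : G.V → Bool, (∀ d ∈ T, s (G.src d) = s (G.src (G.inv d))) → ∀ u v, s u = s v)
    ⟨Set.univ, fun _ _ => trivial, fun s hs => h s fun d => hs d trivial⟩
  refine ⟨T, hT.1.1, hT.1.2, fun d hd => ?_⟩
  have hT' : ¬ ((∀ e ∈ T \ {d, G.inv d}, G.inv e ∈ T \ {d, G.inv d}) ∧
    ∀ s : G.V → Bool, (∀ e ∈ T \ {d, G.inv d}, s (G.src e) = s (G.src (G.inv e))) →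
      ∀ u v, s u = s v) := by
    intro h1
    have h2 : T ⊆ T \ {d, G.inv d} := hT.2 h1 Set.sdiff_subset
    exact (h2 hd).2 (by simp)
  have hinv : ∀ e ∈ T \ {d, G.inv d}, G.inv e ∈ T \ {d, G.inv d} := by
    rintro e ⟨h1, h2⟩
    refine ⟨hT.1.1 e h1, ?_⟩
    simp only [Set.mem_insert_iff, Set.mem_singleton_iff, not_or] at h2 ⊢
    refine ⟨fun h3 => h2.2 ?_, fun h3 => h2.1 (inv_inj h3)⟩
    rw [← h3, G.inv_inv]
  have h3 : ¬ ∀ s : G.V → Bool, (∀ e ∈ T \ {d, G.inv d}, s (G.src e) = s (G.src (G.inv e))) →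
      ∀ u v, s u = s v := fun h4 => hT' ⟨hinv, h4⟩
  push Not at h3
  obtain ⟨s, hs, u, v, huv⟩ := h3
  have hs' : ∀ e ∈ T, e ≠ d → e ≠ G.inv d → s (G.src e) = s (G.src (G.inv e)) :=
    fun e he h4 h5 => hs e ⟨he, by simp [h4, h5]⟩
  refine ⟨s, fun h4 => huv (hT.1.2 s (fun e he => ?_) u v), hs'⟩
  by_cases h5 : e = d
  · rw [h5]; exact h4
  · by_cases h6 : e = G.inv d
    · rw [h6, G.inv_inv]; exact h4.symm
    · exact hs' e he h5 h6

/-- A set of vertices that is left by only one dart of the tree contains a vertex with a dart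
outside the tree. -/
theorem IsTree.p3 {T : Set G.D} (hT : IsTree G T) (hc : G.Cubic) : ∀ (n : ℕ) (K : Set G.V),
    K.ncard ≤ n → ∀ d ∈ T, G.src d ∈ K → G.src (G.inv d) ∉ K →
    (∀ e ∈ T, G.src e ∈ K → G.src (G.inv e) ∉ K → e = d) → ∃ g, g ∉ T ∧ G.src g ∈ K := by
  intro n
  induction n with
  | zero =>
    intro K hK d _ hd2 _ _
    have : K = ∅ := (Set.ncard_eq_zero (Set.toFinite K)).1 (by omega)
    rw [this] at hd2
    exact absurd hd2 (Set.notMem_empty _)
  | succ n ih =>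
    intro K hK d hdT hdK hdK' honly
    obtain ⟨a, b, c, h1, h2, h3, h4⟩ := hc.three (G.src d)
    obtain ⟨g, hg1, hg2⟩ : ∃ g, G.src g = G.src d ∧ g ≠ d := by
      by_cases h5 : a = d
      · exact ⟨b, (h4 b).2 (by simp), fun h6 => h1 (h5.trans h6.symm)⟩
      · exact ⟨a, (h4 a).2 (by simp), h5⟩
    by_cases hgT : g ∈ T
    · obtain ⟨s, hs1, hs2⟩ := hT.sep g hgT
      have hgK : G.src (G.inv g) ∈ K := by
        by_contra h5
        exact hg2 (honly g hgT (by rw [hg1]; exact hdK) h5)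
      set K' : Set G.V := {v | v ∈ K ∧ s v ≠ s (G.src g)} with hK'
      have hlt : K'.ncard < K.ncard := by
        refine Set.ncard_lt_ncard ?_ (Set.toFinite K)
        refine ⟨fun v hv => hv.1, fun h5 => ?_⟩
        exact (h5 (show G.src g ∈ K by rw [hg1]; exact hdK)).2 rfl
      obtain ⟨e, he1, he2⟩ := ih K' (by omega) (G.inv g) (hT.inv_mem g hgT)
        ⟨hgK, Ne.symm hs1⟩ (by rw [G.inv_inv]; exact fun h5 => h5.2 rfl) (by
          intro e heT heK heK'
          by_cases h5 : G.src (G.inv e) ∈ K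
          · have h6 : s (G.src (G.inv e)) = s (G.src g) := by
              by_contra h7
              exact heK' ⟨h5, h7⟩
            by_contra h7
            have h8 : e ≠ g := by
              rintro rfl
              exact heK.2 rfl
            have h9 := hs2 e heT h8 h7
            exact heK.2 (h9.trans h6)
          · exfalso
            have h6 := honly e heT heK.1 h5
            rw [h6] at heK
            exact heK.2 (by rw [hg1]))
      exact ⟨e, he1, he2.1⟩
    · exact ⟨g, hgT, by rw [hg1]; exact hdK⟩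

/-- No loops in the tree. -/
theorem IsTree.no_loop {T : Set G.D} (hT : IsTree G T) {d : G.D} (hd : d ∈ T) :
    G.src d ≠ G.src (G.inv d) := by
  obtain ⟨s, hs, -⟩ := hT.sep d hd
  exact fun h => hs (by rw [h])

/-- No parallel edges in the tree. -/
theorem IsTree.no_parallel {T : Set G.D} (hT : IsTree G T) {d e : G.D} (hd : d ∈ T) (he : e ∈ T)
    (h1 : G.src d = G.src e) (h2 : G.src (G.inv d) = G.src (G.inv e)) : d = e := by
  obtain ⟨s, hs, hs'⟩ := hT.sep d hd
  by_contra hne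
  by_cases h3 : e = G.inv d
  · rw [h3] at h1
    exact hT.no_loop hd h1
  · have := hs' e he (Ne.symm hne) h3
    rw [← h1, ← h2] at this
    exact hs this

end Pool.Agent.R667.SC.DG
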